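import Mathlib

set_option autoImplicit false

/-! # The endomorphism algebra of a projective representation of a quiver

`V` is the set of vertices, `v ⟶ w` the set of arrows from `v` to `w`, `Quiver.Path v w` the set
of paths from `v` to `w`, and `d : V → ℕ` the summand vector. -/

namespace Pool.Agent.Lib_helper49.INS

section

variable (K : Type) [Field K] {V : Type} [Quiver.{0} V] (d : V → ℕ)

/-- The representation `P_{Q,d} = ⊕_i P(i)^{d i}` at the vertex `v`: the space with basis the
triples `(i, k, p)` with `i` a vertex, `k < d i` and `p` a path from `i` to `v`. -/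
abbrev PSpace (v : V) : Type := (Σ i : V, Fin (d i) × Quiver.Path i v) →₀ K

/-- The linear map of `P_{Q,d}` along an arrow `e : v ⟶ w`: the basis vector `(i, k, p)` goes to
`(i, k, p e)`. -/
noncomputable def PMap {v w : V} (e : v ⟶ w) : PSpace K d v →ₗ[K] PSpace K d w :=
  Finsupp.lmapDomain K K (fun x : (Σ i : V, Fin (d i) × Quiver.Path i v) =>
    (⟨x.1, x.2.1, x.2.2.cons e⟩ : Σ i : V, Fin (d i) × Quiver.Path i w))

variable {K d} in
/-- A family of linear endomorphisms of the spaces of `P_{Q,d}` is an endomorphism of the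
representation if it commutes with the maps along all arrows. -/
def IsEnd (f : ∀ v : V, Module.End K (PSpace K d v)) : Prop :=
  ∀ (v w : V) (e : v ⟶ w), (f w).comp (PMap K d e) = (PMap K d e).comp (f v)

theorem isEnd_mul {f g : ∀ v : V, Module.End K (PSpace K d v)} (hf : IsEnd f) (hg : IsEnd g) :
    IsEnd (f * g) := by
  intro v w e
  show (f w).comp ((g w).comp (PMap K d e)) = (PMap K d e).comp ((f v).comp (g v))
  rw [hg v w e, ← LinearMap.comp_assoc, hf v w e, LinearMap.comp_assoc]

theorem isEnd_one : IsEnd (1 : ∀ v : V, Module.End K (PSpace K d v)) := by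
  intro v w e
  rfl

theorem isEnd_add {f g : ∀ v : V, Module.End K (PSpace K d v)} (hf : IsEnd f) (hg : IsEnd g) :
    IsEnd (f + g) := by
  intro v w e
  show (f w + g w).comp (PMap K d e) = (PMap K d e).comp (f v + g v)
  rw [LinearMap.add_comp, LinearMap.comp_add, hf v w e, hg v w e]

theorem isEnd_zero : IsEnd (0 : ∀ v : V, Module.End K (PSpace K d v)) := by
  intro v w e
  show (0 : PSpace K d w →ₗ[K] PSpace K d w).comp (PMap K d e) =
    (PMap K d e).comp (0 : PSpace K d v →ₗ[K] PSpace K d v)
  rw [LinearMap.zero_comp, LinearMap.comp_zero]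

theorem isEnd_neg {f : ∀ v : V, Module.End K (PSpace K d v)} (hf : IsEnd f) : IsEnd (-f) := by
  intro v w e
  show (-(f w)).comp (PMap K d e) = (PMap K d e).comp (-(f v))
  rw [LinearMap.neg_comp, LinearMap.comp_neg, hf v w e]

/-- The ring `A_{Q,d} = End(P_{Q,d})`: all endomorphisms of the representation `P_{Q,d}`, with
pointwise sum and composition. -/
noncomputable def EndRing : Subring (∀ v : V, Module.End K (PSpace K d v)) where
  carrier := {f | IsEnd f}
  mul_mem' := isEnd_mul K d
  one_mem' := isEnd_one K d
  add_mem' := isEnd_add K d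
  zero_mem' := isEnd_zero K d
  neg_mem' := isEnd_neg K d

end

/-- The number of pairs `(x, y)` of elements of the Jacobson radical of a ring with `x y = y x`. -/
noncomputable def jacobsonPairs (R : Type) [Ring R] : ℕ :=
  Nat.card {p : R × R // p.1 ∈ Ring.jacobson R ∧ p.2 ∈ Ring.jacobson R ∧ p.1 * p.2 = p.2 * p.1}

/-- The count `[Q,d]` over the field `K`: the number of pairs `(x, y)` of elements of the Jacobson
radical of `A_{Q,d}` with `x y = y x`. -/
noncomputable def count (K : Type) [Field K] {V : Type} [Quiver.{0} V] (d : V → ℕ) : ℕ :=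
  jacobsonPairs (EndRing K d)

end Pool.Agent.Lib_helper49.INS
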