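import Mathlib
import Pool.Agent.Lib_helper49.INS.Defs

set_option autoImplicit false

/-! # The Jacobson radical of `End(P)` consists of the endomorphisms of `P` into `rad P` -/

namespace Pool.Agent.Lib_helper49.INS

open Quiver

theorem ring_aux {R : Type} [Ring R] (z y f : R) : z * y * f + z - 1 = 0 ↔ z * (1 + y * f) = 1 := by
  rw [sub_eq_zero, mul_add, mul_one, ← mul_assoc, add_comm]

section

variable {K : Type} [Field K] {V : Type} [Quiver.{0} V] {d : V → ℕ}

theorem PMap_single {v w : V} (e : v ⟶ w) (i : V) (k : Fin (d i)) (p : Quiver.Path i v) (t : K) :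
    PMap K d e (Finsupp.single ⟨i, k, p⟩ t) = Finsupp.single ⟨i, k, p.cons e⟩ t := by
  rw [PMap, Finsupp.lmapDomain_apply, Finsupp.mapDomain_single]

variable (K d) in
/-- The space of `rad P` at `v`. -/
noncomputable def RadSp (v : V) : Submodule K (PSpace K d v) :=
  ⨆ (u : V) (e : u ⟶ v), LinearMap.range (PMap K d e)

theorem mem_RadSp {v : V} (m : PSpace K d v) :
    m ∈ RadSp K d v ↔ ∀ k : Fin (d v), m ⟨v, k, Path.nil⟩ = 0 := by
  constructor
  · intro hm k
    have hle : RadSp K d v ≤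
        LinearMap.ker (Finsupp.lapply (R := K) (M := K)
          (⟨v, k, Path.nil⟩ : Σ i : V, Fin (d i) × Quiver.Path i v)) := by
      refine iSup_le fun u => iSup_le fun e => ?_
      rintro _ ⟨l, rfl⟩
      rw [LinearMap.mem_ker, Finsupp.lapply_apply, PMap, Finsupp.lmapDomain_apply]
      apply Finsupp.mapDomain_of_notMem_range
      rintro ⟨⟨i, k', p⟩, hb⟩
      obtain ⟨h1, h2⟩ := Sigma.mk.inj hb
      subst h1
      obtain ⟨h3, h4⟩ := Prod.mk.inj (eq_of_heq h2)
      exact Path.cons_ne_nil _ _ h4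
    exact hle hm
  · intro hm
    rw [← Finsupp.sum_single m]
    apply Submodule.sum_mem
    rintro ⟨i, k, p⟩ hb
    cases p with
    | nil => exact absurd (hm k) (Finsupp.mem_support_iff.mp hb)
    | cons p e =>
      refine Submodule.mem_iSup_of_mem _ (Submodule.mem_iSup_of_mem e ?_)
      refine ⟨Finsupp.single ⟨i, k, p⟩ (m ⟨i, k, p.cons e⟩), ?_⟩
      rw [PMap_single]

theorem PMap_mem_RadSp {u v : V} (e : u ⟶ v) (m : PSpace K d u) : PMap K d e m ∈ RadSp K d v :=
  Submodule.mem_iSup_of_mem _ (Submodule.mem_iSup_of_mem e ⟨m, rfl⟩)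

theorem stable (f : EndRing K d) {v : V} {m : PSpace K d v} (hm : m ∈ RadSp K d v) :
    f.1 v m ∈ RadSp K d v := by
  have hle : RadSp K d v ≤ (RadSp K d v).comap (f.1 v) := by
    refine iSup_le fun u => iSup_le fun e => ?_
    rintro _ ⟨l, rfl⟩
    show f.1 v (PMap K d e l) ∈ RadSp K d v
    have h := congrArg (fun F => F l) (f.2 u v e)
    have h' : f.1 v (PMap K d e l) = PMap K d e (f.1 u l) := h
    rw [h']
    exact PMap_mem_RadSp e _
  exact hle hm

theorem comm_apply (f : EndRing K d) {u v : V} (e : u ⟶ v) (l : PSpace K d u) :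
    f.1 v (PMap K d e l) = PMap K d e (f.1 u l) :=
  congrArg (fun F => F l) (f.2 u v e)

/-- The endomorphisms with image in `rad P`. -/
def IsRad (f : EndRing K d) : Prop := ∀ v : V, LinearMap.range (f.1 v) ≤ RadSp K d v

/-- The vectors supported on paths starting at vertices of small height. -/
def WSp (ht : V → ℕ) (c : ℕ) (v : V) : Submodule K (PSpace K d v) where
  carrier := {m | ∀ x, c ≤ ht x.1 → m x = 0}
  add_mem' := by
    intro a b ha hb x hx
    rw [Finsupp.add_apply, ha x hx, hb x hx, add_zero]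
  zero_mem' := by
    intro x _
    rfl
  smul_mem' := by
    intro t a ha x hx
    rw [Finsupp.smul_apply, ha x hx, smul_zero]

theorem PMap_WSp (ht : V → ℕ) (c : ℕ) {v w : V} (e : v ⟶ w) {m : PSpace K d v}
    (hm : m ∈ WSp ht c v) : PMap K d e m ∈ WSp (K := K) (d := d) ht c w := by
  rw [← Finsupp.sum_single m, Finsupp.sum, map_sum]
  apply Submodule.sum_mem
  rintro ⟨i, k, p⟩ hb
  rw [PMap_single]
  intro x hx
  by_cases hxe : (⟨i, k, p.cons e⟩ : Σ i : V, Fin (d i) × Quiver.Path i w) = x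
  · subst hxe
    exact absurd (hm ⟨i, k, p⟩ hx) (Finsupp.mem_support_iff.mp hb)
  · exact Finsupp.single_eq_of_ne' hxe

theorem isRad_lower (ht : V → ℕ) (hht : ∀ v w : V, (v ⟶ w) → ht v < ht w) {g : EndRing K d}
    (hg : IsRad g) (c : ℕ) (i : V) (k : Fin (d i)) (hi : ht i < c + 1) {v : V}
    (p : Quiver.Path i v) :
    g.1 v (Finsupp.single ⟨i, k, p⟩ 1) ∈ WSp (K := K) (d := d) ht c v := by
  induction p with
  | nil =>
    have h1 : g.1 i (Finsupp.single ⟨i, k, Path.nil⟩ 1) ∈ RadSp K d i := hg i ⟨_, rfl⟩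
    rw [mem_RadSp] at h1
    rintro ⟨j, l, q⟩ hj
    cases q with
    | nil => exact h1 l
    | cons q e =>
      exfalso
      have h2 : ∀ {a b : V} (q : Quiver.Path a b), ht a ≤ ht b := by
        intro a b q
        induction q with
        | nil => exact le_rfl
        | cons q e ih => exact ih.trans (hht _ _ e).le
      have h3 := h2 q
      have h4 := hht _ _ e
      simp only at hj
      omega
  | cons p e ih =>
    rw [← PMap_single, comm_apply]
    exact PMap_WSp ht c e ih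

theorem isRad_lower' (ht : V → ℕ) (hht : ∀ v w : V, (v ⟶ w) → ht v < ht w) {g : EndRing K d}
    (hg : IsRad g) (c : ℕ) {v : V} {m : PSpace K d v} (hm : m ∈ WSp ht (c + 1) v) :
    g.1 v m ∈ WSp (K := K) (d := d) ht c v := by
  rw [← Finsupp.sum_single m, Finsupp.sum, map_sum]
  apply Submodule.sum_mem
  rintro ⟨i, k, p⟩ hb
  have hi : ht i < c + 1 := by
    by_contra hcon
    exact absurd (hm ⟨i, k, p⟩ (not_lt.1 hcon)) (Finsupp.mem_support_iff.mp hb)
  have h1 : (Finsupp.single ⟨i, k, p⟩ (m ⟨i, k, p⟩) : PSpace K d v) =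
      m ⟨i, k, p⟩ • Finsupp.single ⟨i, k, p⟩ 1 := by
    rw [Finsupp.smul_single, smul_eq_mul, mul_one]
  rw [h1, map_smul]
  exact Submodule.smul_mem _ _ (isRad_lower ht hht hg c i k hi p)

theorem isRad_pow (ht : V → ℕ) (hht : ∀ v w : V, (v ⟶ w) → ht v < ht w) {g : EndRing K d}
    (hg : IsRad g) (n : ℕ) : ∀ (c : ℕ) {v : V} {m : PSpace K d v}, m ∈ WSp ht (c + n) v →
      (g ^ n).1 v m ∈ WSp (K := K) (d := d) ht c v := by
  induction n with
  | zero =>
    intro c v m hm
    rw [pow_zero]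
    exact hm
  | succ n ih =>
    intro c v m hm
    rw [pow_succ]
    show (g ^ n).1 v (g.1 v m) ∈ _
    exact ih c (isRad_lower' ht hht hg (c + n) hm)

theorem isRad_nilpotent [Finite V] (ht : V → ℕ) (hht : ∀ v w : V, (v ⟶ w) → ht v < ht w)
    {g : EndRing K d} (hg : IsRad g) : IsNilpotent g := by
  obtain ⟨H, hH⟩ : ∃ H : ℕ, ∀ v, ht v < H := by
    obtain ⟨H, hH⟩ := (Set.finite_range ht).bddAbove
    exact ⟨H + 1, fun v => Nat.lt_succ_of_le (hH ⟨v, rfl⟩)⟩
  refine ⟨H, ?_⟩
  apply Subtype.ext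
  funext v
  apply LinearMap.ext
  intro m
  have h1 : m ∈ WSp (K := K) (d := d) ht (0 + H) v := by
    intro x hx
    have := hH x.1
    omega
  have h2 := isRad_pow ht hht hg H 0 h1
  show (g ^ H).1 v m = 0
  ext x
  exact h2 x (Nat.zero_le _)

theorem isRad_mul (y : EndRing K d) {f : EndRing K d} (hf : IsRad f) : IsRad (y * f) := by
  rintro v _ ⟨m, rfl⟩
  show y.1 v (f.1 v m) ∈ _
  exact stable y (hf v ⟨m, rfl⟩)

theorem isRad_mem_jacobson [Finite V] (ht : V → ℕ) (hht : ∀ v w : V, (v ⟶ w) → ht v < ht w)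
    {f : EndRing K d} (hf : IsRad f) : f ∈ Ring.jacobson (EndRing K d) := by
  rw [← Ideal.jacobson_bot, Ideal.mem_jacobson_iff]
  intro y
  have h1 : IsNilpotent (y * f) := isRad_nilpotent ht hht (isRad_mul y hf)
  obtain ⟨u, hu⟩ := h1.isUnit_one_add
  refine ⟨(u⁻¹ : (EndRing K d)ˣ), ?_⟩
  have h2 : ((u⁻¹ : (EndRing K d)ˣ) : EndRing K d) * (1 + y * f) = 1 := by
    rw [← hu]
    exact u.inv_mul
  rw [Ideal.mem_bot]
  exact (ring_aux _ _ _).2 h2

/-- Values of the elementary endomorphism on the basis. -/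
noncomputable def yf (v0 : V) (k0 l0 : Fin (d v0)) (t : K) (w : V)
    (x : Σ i : V, Fin (d i) × Quiver.Path i w) : PSpace K d w := by
  classical
  exact if h : x.1 = v0 ∧ (x.2.1 : ℕ) = k0 then
    Finsupp.single ⟨x.1, ⟨(l0 : ℕ), by rw [h.1]; exact l0.2⟩, x.2.2⟩ t else 0

/-- The elementary endomorphism which takes the generator `(v0, k0)` to `t` times the generator
`(v0, l0)` and the other generators to `0`. -/
noncomputable def yE (v0 : V) (k0 l0 : Fin (d v0)) (t : K) : EndRing K d :=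
  ⟨fun w => Finsupp.linearCombination K (yf v0 k0 l0 t w), by
    intro v w e
    apply Finsupp.lhom_ext'
    rintro ⟨i, k, p⟩
    apply LinearMap.ext_ring
    simp only [LinearMap.comp_apply, Finsupp.lsingle_apply]
    rw [PMap_single, Finsupp.linearCombination_single, Finsupp.linearCombination_single, one_smul,
      one_smul]
    unfold yf
    by_cases h : i = v0 ∧ (k : ℕ) = k0
    · rw [dif_pos h, dif_pos h, PMap_single]
    · rw [dif_neg h, dif_neg h, map_zero]⟩

theorem yE_coeff (v0 : V) (k0 l0 l : Fin (d v0)) (t : K) (m : PSpace K d v0) :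
    ((yE v0 k0 l0 t).1 v0 m) ⟨v0, l, Path.nil⟩ =
      if l = l0 then t * m ⟨v0, k0, Path.nil⟩ else 0 := by
  classical
  have key : (Finsupp.lapply (R := K) (M := K)
      (⟨v0, l, Path.nil⟩ : Σ i : V, Fin (d i) × Quiver.Path i v0)).comp
        ((yE v0 k0 l0 t).1 v0) =
      (if l = l0 then t else 0) • (Finsupp.lapply (R := K) (M := K)
        (⟨v0, k0, Path.nil⟩ : Σ i : V, Fin (d i) × Quiver.Path i v0)) := by
    apply Finsupp.lhom_ext'
    rintro ⟨i, k, p⟩
    apply LinearMap.ext_ring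
    simp only [LinearMap.comp_apply, Finsupp.lsingle_apply, LinearMap.smul_apply,
      Finsupp.lapply_apply]
    show (Finsupp.linearCombination K (yf v0 k0 l0 t v0) (Finsupp.single ⟨i, k, p⟩ 1))
      ⟨v0, l, Path.nil⟩ = _
    rw [Finsupp.linearCombination_single, one_smul]
    unfold yf
    by_cases h : i = v0 ∧ (k : ℕ) = k0
    · rw [dif_pos h]
      obtain ⟨rfl, h2⟩ := h
      have h3 : k = k0 := Fin.ext h2
      subst h3
      have h4 : (⟨(l0 : ℕ), l0.2⟩ : Fin (d i)) = l0 := rfl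
      show (Finsupp.single (⟨i, l0, p⟩ : Σ j : V, Fin (d j) × Quiver.Path j i) t)
        ⟨i, l, Path.nil⟩ = _
      by_cases hp : p = Path.nil
      · subst hp
        by_cases hl : l = l0
        · subst hl
          rw [if_pos rfl, Finsupp.single_eq_same, Finsupp.single_eq_same, smul_eq_mul, mul_one]
        · rw [if_neg hl, zero_smul]
          apply Finsupp.single_eq_of_ne'
          intro hh
          obtain ⟨_, h5⟩ := Sigma.mk.inj hh
          exact hl (Prod.mk.inj (eq_of_heq h5)).1.symm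
      · rw [Finsupp.single_eq_of_ne', Finsupp.single_eq_of_ne', smul_zero]
        · intro hh
          obtain ⟨_, h5⟩ := Sigma.mk.inj hh
          exact hp (Prod.mk.inj (eq_of_heq h5)).2
        · intro hh
          obtain ⟨_, h5⟩ := Sigma.mk.inj hh
          exact hp (Prod.mk.inj (eq_of_heq h5)).2
    · rw [dif_neg h, Finsupp.single_eq_of_ne', smul_zero]
      · rfl
      · intro hh
        obtain ⟨h4, h5⟩ := Sigma.mk.inj hh
        subst h4
        exact h ⟨rfl, congrArg Fin.val (Prod.mk.inj (eq_of_heq h5)).1⟩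
  have h := congrArg (fun F => F m) key
  have h' : ((yE v0 k0 l0 t).1 v0 m) ⟨v0, l, Path.nil⟩ =
      (if l = l0 then t else 0) * m ⟨v0, k0, Path.nil⟩ := h
  rw [h']
  split_ifs
  · rfl
  · rw [zero_mul]

theorem isRad_of_mem_jacobson {f : EndRing K d} (hf : f ∈ Ring.jacobson (EndRing K d)) :
    IsRad f := by
  classical
  have key : ∀ (v : V) (k l : Fin (d v)),
      (f.1 v (Finsupp.single ⟨v, l, Path.nil⟩ 1)) ⟨v, k, Path.nil⟩ = 0 := by
    intro v k l
    by_contra hc
    set c : K := (f.1 v (Finsupp.single ⟨v, l, Path.nil⟩ 1)) ⟨v, k, Path.nil⟩ with hcdef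
    rw [← Ideal.jacobson_bot, Ideal.mem_jacobson_iff] at hf
    obtain ⟨z, hz⟩ := hf (yE v k l (-c⁻¹))
    rw [Ideal.mem_bot] at hz
    have h1 : z * (1 + yE v k l (-c⁻¹) * f) = 1 := (ring_aux _ _ _).1 hz
    have h2 : (1 + yE v k l (-c⁻¹) * f).1 v (Finsupp.single ⟨v, l, Path.nil⟩ 1) ∈
        RadSp K d v := by
      rw [mem_RadSp]
      intro j
      show (Finsupp.single ⟨v, l, Path.nil⟩ (1 : K) + (yE v k l (-c⁻¹)).1 v
        (f.1 v (Finsupp.single ⟨v, l, Path.nil⟩ 1)) : PSpace K d v) ⟨v, j, Path.nil⟩ = 0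
      rw [Finsupp.add_apply, yE_coeff, ← hcdef]
      by_cases hj : j = l
      · subst hj
        rw [if_pos rfl, Finsupp.single_eq_same, neg_mul, inv_mul_cancel₀ hc, add_neg_cancel]
      · rw [if_neg hj, add_zero]
        apply Finsupp.single_eq_of_ne'
        intro hh
        obtain ⟨_, h5⟩ := Sigma.mk.inj hh
        exact hj (Prod.mk.inj (eq_of_heq h5)).1.symm
    have h3 := stable z h2
    have h4 : z.1 v ((1 + yE v k l (-c⁻¹) * f).1 v (Finsupp.single ⟨v, l, Path.nil⟩ 1)) =
        Finsupp.single ⟨v, l, Path.nil⟩ 1 := by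
      have h5 : (z * (1 + yE v k l (-c⁻¹) * f)).1 v (Finsupp.single ⟨v, l, Path.nil⟩ 1) =
          (1 : EndRing K d).1 v (Finsupp.single ⟨v, l, Path.nil⟩ 1) := by rw [h1]
      exact h5
    rw [h4, mem_RadSp] at h3
    have h6 := h3 l
    rw [Finsupp.single_eq_same] at h6
    exact one_ne_zero h6
  intro v
  rintro _ ⟨m, rfl⟩
  rw [← Finsupp.sum_single m, Finsupp.sum, map_sum]
  apply Submodule.sum_mem
  rintro ⟨i, l, p⟩ _
  cases p with
  | nil =>
    have h1 : (Finsupp.single ⟨v, l, Path.nil⟩ (m ⟨v, l, Path.nil⟩) : PSpace K d v) =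
        m ⟨v, l, Path.nil⟩ • Finsupp.single ⟨v, l, Path.nil⟩ 1 := by
      rw [Finsupp.smul_single, smul_eq_mul, mul_one]
    rw [h1, map_smul]
    apply Submodule.smul_mem
    rw [mem_RadSp]
    intro k
    exact key v k l
  | cons p e =>
    rw [← PMap_single, comm_apply]
    exact PMap_mem_RadSp e _

/-- The Jacobson radical of `End(P)` is the set of endomorphisms with image in `rad P`. -/
theorem mem_jacobson_iff_isRad [Finite V] (ht : V → ℕ) (hht : ∀ v w : V, (v ⟶ w) → ht v < ht w)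
    (f : EndRing K d) : f ∈ Ring.jacobson (EndRing K d) ↔ IsRad f :=
  ⟨isRad_of_mem_jacobson, isRad_mem_jacobson ht hht⟩

end

end Pool.Agent.Lib_helper49.INS
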