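import Mathlib
import Pool.Agent.Lib_helper49.INS.QDual

set_option autoImplicit false

/-! # Intertwiners out of a cyclic module -/

namespace Pool.Agent.Lib_helper49.INS

open Matrix

/-- Commuting pairs with vanishing cubic monomials. -/
structure Cube {m K : Type} [Fintype m] [Field K] (X Y : Matrix m m K) : Prop where
  comm : X * Y = Y * X
  xxx : X * (X * X) = 0
  xxy : X * (X * Y) = 0
  xyy : X * (Y * Y) = 0
  yyy : Y * (Y * Y) = 0

section

variable {m n : Type} [Fintype m] [Fintype n] {K : Type} [Field K]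

/-- The six monomials of degree at most two applied to a vector. -/
def mon (X Y : Matrix m m K) (v : m → K) : Fin 6 → (m → K) :=
  ![v, X *ᵥ v, Y *ᵥ v, X *ᵥ (X *ᵥ v), X *ᵥ (Y *ᵥ v), Y *ᵥ (Y *ᵥ v)]

/-- The evaluation map of polynomials of degree at most two. -/
def Phi (X Y : Matrix m m K) (v : m → K) : (Fin 6 → K) →ₗ[K] (m → K) :=
  Fintype.linearCombination K (mon X Y v)

theorem Phi_apply (X Y : Matrix m m K) (v : m → K) (c : Fin 6 → K) :
    Phi X Y v c = c 0 • v + c 1 • (X *ᵥ v) + c 2 • (Y *ᵥ v) + c 3 • (X *ᵥ (X *ᵥ v)) +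
      c 4 • (X *ᵥ (Y *ᵥ v)) + c 5 • (Y *ᵥ (Y *ᵥ v)) := by
  rw [Phi, Fintype.linearCombination_apply, Fin.sum_univ_six]
  rfl

variable {X Y : Matrix m m K} {X' Y' : Matrix n n K}

theorem Cube.v_comm (h : Cube X Y) (v : m → K) : Y *ᵥ (X *ᵥ v) = X *ᵥ (Y *ᵥ v) := by
  rw [mulVec_mulVec, mulVec_mulVec, h.comm]

theorem Cube.v_xxx (h : Cube X Y) (v : m → K) : X *ᵥ (X *ᵥ (X *ᵥ v)) = 0 := by
  rw [mulVec_mulVec, mulVec_mulVec, Matrix.mul_assoc, h.xxx, zero_mulVec]

theorem Cube.v_xxy (h : Cube X Y) (v : m → K) : X *ᵥ (X *ᵥ (Y *ᵥ v)) = 0 := by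
  rw [mulVec_mulVec, mulVec_mulVec, Matrix.mul_assoc, h.xxy, zero_mulVec]

theorem Cube.v_xyy (h : Cube X Y) (v : m → K) : X *ᵥ (Y *ᵥ (Y *ᵥ v)) = 0 := by
  rw [mulVec_mulVec, mulVec_mulVec, Matrix.mul_assoc, h.xyy, zero_mulVec]

theorem Cube.v_yyy (h : Cube X Y) (v : m → K) : Y *ᵥ (Y *ᵥ (Y *ᵥ v)) = 0 := by
  rw [mulVec_mulVec, mulVec_mulVec, Matrix.mul_assoc, h.yyy, zero_mulVec]

theorem Phi_X (h : Cube X Y) (v : m → K) (c : Fin 6 → K) :
    X *ᵥ (Phi X Y v c) = Phi X Y v ![0, c 0, 0, c 1, c 2, 0] := by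
  rw [Phi_apply, Phi_apply]
  simp only [mulVec_add, mulVec_smul, h.v_xxx, h.v_xxy, h.v_xyy, smul_zero, add_zero]
  simp

theorem Phi_Y (h : Cube X Y) (v : m → K) (c : Fin 6 → K) :
    Y *ᵥ (Phi X Y v c) = Phi X Y v ![0, 0, c 0, 0, c 1, c 2] := by
  rw [Phi_apply, Phi_apply]
  simp only [mulVec_add, mulVec_smul, h.v_comm, h.v_xxy, h.v_xyy, h.v_yyy, smul_zero,
    add_zero]
  simp

theorem Phi_intertwine {θ : Matrix n m K} (hθ : θ ∈ Hsub X Y X' Y') (v : m → K)
    (c : Fin 6 → K) : θ *ᵥ (Phi X Y v c) = Phi X' Y' (θ *ᵥ v) c := by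
  have hx : ∀ w, θ *ᵥ (X *ᵥ w) = X' *ᵥ (θ *ᵥ w) := fun w => by
    rw [mulVec_mulVec, mulVec_mulVec, hθ.1]
  have hy : ∀ w, θ *ᵥ (Y *ᵥ w) = Y' *ᵥ (θ *ᵥ w) := fun w => by
    rw [mulVec_mulVec, mulVec_mulVec, hθ.2]
  rw [Phi_apply, Phi_apply]
  simp only [mulVec_add, mulVec_smul, hx, hy]

/-- The quadratic polynomial with coefficients `u`. -/
def Qu (u : Fin 3 → K) (X' Y' : Matrix n n K) : Matrix n n K :=
  u 0 • (X' * X') + u 1 • (X' * Y') + u 2 • (Y' * Y')

theorem Qu_mulVec (u : Fin 3 → K) (w : n → K) :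
    Qu u X' Y' *ᵥ w = Phi X' Y' w ![0, 0, 0, u 0, u 1, u 2] := by
  rw [Phi_apply, Qu]
  simp [add_mulVec, smul_mulVec]

/-- A vector generating a cyclic module with a single quadratic relation. -/
structure CycRel (X Y : Matrix m m K) (v : m → K) (u : Fin 3 → K) : Prop where
  surj : Function.Surjective (Phi X Y v)
  rel : Phi X Y v ![0, 0, 0, u 0, u 1, u 2] = 0
  ker : ∀ c, Phi X Y v c = 0 → ∃ t : K, c = t • ![0, 0, 0, u 0, u 1, u 2]

/-- Evaluation at the generator. -/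
def evalv (X Y : Matrix m m K) (X' Y' : Matrix n n K) (v : m → K) :
    Hsub X Y X' Y' →ₗ[K] (n → K) where
  toFun θ := θ.1 *ᵥ v
  map_add' _ _ := add_mulVec _ _ _
  map_smul' _ _ := smul_mulVec _ _ _

theorem evalv_injective {v : m → K} {u : Fin 3 → K} (hc : CycRel X Y v u) :
    Function.Injective (evalv X Y X' Y' v) := by
  rw [injective_iff_map_eq_zero]
  rintro ⟨θ, hθ⟩ h
  apply Subtype.ext
  show θ = 0
  change θ *ᵥ v = 0 at h
  have h1 : ∀ x, θ *ᵥ x = 0 := by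
    intro x
    obtain ⟨c, rfl⟩ := hc.surj x
    rw [Phi_intertwine hθ, h, Phi_apply]
    simp
  classical
  ext i j
  have := congrFun (h1 (Pi.single j 1)) i
  simpa using this

theorem evalv_range (h : Cube X Y) (h' : Cube X' Y') {v : m → K} {u : Fin 3 → K}
    (hc : CycRel X Y v u) :
    LinearMap.range (evalv X Y X' Y' v) = LinearMap.ker (Qu u X' Y').mulVecLin := by
  classical
  ext w
  rw [LinearMap.mem_ker, mulVecLin_apply, Qu_mulVec]
  constructor
  · rintro ⟨⟨θ, hθ⟩, rfl⟩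
    show Phi X' Y' (θ *ᵥ v) _ = 0
    rw [← Phi_intertwine hθ, hc.rel, mulVec_zero]
  · intro hw
    obtain ⟨s, hs⟩ := LinearMap.exists_rightInverse_of_surjective (Phi X Y v)
      (LinearMap.range_eq_top.2 hc.surj)
    have hs' : ∀ x, Phi X Y v (s x) = x := fun x => congrArg (fun F => F x) hs
    have key : ∀ c, Phi X' Y' w (s (Phi X Y v c)) = Phi X' Y' w c := by
      intro c
      obtain ⟨t, ht⟩ := hc.ker (s (Phi X Y v c) - c) (by rw [map_sub, hs', sub_self])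
      rw [← sub_eq_zero, ← map_sub, ht, map_smul, hw, smul_zero]
    let θ : Matrix n m K := LinearMap.toMatrix' ((Phi X' Y' w).comp s)
    have hθ : ∀ c, θ *ᵥ (Phi X Y v c) = Phi X' Y' w c := by
      intro c
      show LinearMap.toMatrix' ((Phi X' Y' w).comp s) *ᵥ _ = _
      rw [LinearMap.toMatrix'_mulVec]
      exact key c
    have ext_vec : ∀ M N : Matrix n m K, (∀ x, M *ᵥ x = N *ᵥ x) → M = N := by
      intro M N hMN
      ext i j
      have := congrFun (hMN (Pi.single j 1)) i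
      simpa using this
    have hmem : θ ∈ Hsub X Y X' Y' := by
      constructor
      · apply ext_vec
        intro x
        obtain ⟨c, rfl⟩ := hc.surj x
        rw [← mulVec_mulVec, ← mulVec_mulVec, hθ, Phi_X h, hθ, Phi_X h']
      · apply ext_vec
        intro x
        obtain ⟨c, rfl⟩ := hc.surj x
        rw [← mulVec_mulVec, ← mulVec_mulVec, hθ, Phi_Y h, hθ, Phi_Y h']
    refine ⟨⟨θ, hmem⟩, ?_⟩
    show θ *ᵥ v = w
    have h1 := hθ ![1, 0, 0, 0, 0, 0]
    rw [Phi_apply, Phi_apply] at h1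
    simpa using h1

theorem finrank_Hsub (h : Cube X Y) (h' : Cube X' Y') {v : m → K} {u : Fin 3 → K}
    (hc : CycRel X Y v u) :
    Module.finrank K (Hsub X Y X' Y') =
      Module.finrank K (LinearMap.ker (Qu u X' Y').mulVecLin) := by
  rw [← evalv_range h h' hc]
  exact (LinearMap.finrank_range_of_inj (evalv_injective hc)).symm

end

end Pool.Agent.Lib_helper49.INS
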