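import Mathlib

set_option autoImplicit false

/-! # Free models of projective quiver representations

For an acyclic quiver, the projective representation `P = ⊕ P(i)^{d i}` has at `v` the basis
`Bs d v` of triples (vertex, index, path to `v`).  If `X` is an explicit family of finite types
with generators and injective maps along the arrows with the same recursive description,
then `Bs d v ≃ X v`, and commuting pairs of radical endomorphisms become pairs of matrices. -/

namespace Pool.Agent.Lib_helper49.INS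

open Quiver

section Model

variable {V : Type} [Quiver.{0} V] (d : V → ℕ)

/-- The path basis of the projective representation at `v`. -/
abbrev Bs (v : V) : Type := Σ i : V, Fin (d i) × Quiver.Path i v

/-- The map induced on path bases by an arrow. -/
abbrev consMap {v w : V} (e : v ⟶ w) : Bs d v → Bs d w :=
  fun x : (Σ i : V, Fin (d i) × Quiver.Path i v) =>
    (⟨x.1, x.2.1, x.2.2.cons e⟩ : Σ i : V, Fin (d i) × Quiver.Path i w)

theorem consMap_injective {v w : V} (e : v ⟶ w) : Function.Injective (consMap d e) := by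
  rintro ⟨i, k, p⟩ ⟨i', k', p'⟩ h
  simp only [consMap] at h
  obtain ⟨h1, h2⟩ := Sigma.mk.inj h
  subst h1
  have h3 := eq_of_heq h2
  obtain ⟨h4, h5⟩ := Prod.mk.inj h3
  subst h4
  have h6 := Path.heq_of_cons_eq_cons h5
  have h7 := eq_of_heq h6
  subst h7
  rfl

variable (X : V → Type) (gen : ∀ v, Fin (d v) → X v) (mp : ∀ v w : V, (v ⟶ w) → X v → X w)

/-- The value in an explicit model of the basis element given by a generator and a path. -/
def toX {i : V} (k : Fin (d i)) : ∀ {v : V}, Path i v → X v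
  | _, .nil => gen _ k
  | _, .cons p e => mp _ _ e (toX k p)

/-- The map from the path basis to an explicit model. -/
def toXB (v : V) (x : Bs d v) : X v := toX d X gen mp x.2.1 x.2.2

/-- The conditions making `X` a free model. -/
structure IsFree : Prop where
  gen_inj : ∀ v, Function.Injective (gen v)
  mp_ne_gen : ∀ {v w : V} (e : v ⟶ w) (x : X v) (k : Fin (d w)), mp v w e x ≠ gen w k
  mp_inj : ∀ {u v w : V} (e : u ⟶ w) (e' : v ⟶ w) (x : X u) (x' : X v),
    mp u w e x = mp v w e' x' →
      (⟨u, e, x⟩ : Σ u : V, (u ⟶ w) × X u) = ⟨v, e', x'⟩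
  surj : ∀ (w : V) (x : X w), (∃ k, gen w k = x) ∨ ∃ (v : V) (e : v ⟶ w) (x' : X v), mp v w e x' = x
  ht : ∃ ht : V → ℕ, ∀ v w : V, (v ⟶ w) → ht v < ht w

variable {d X gen mp}

theorem toX_injective (h : IsFree d X gen mp) {i v : V} (k : Fin (d i)) (p : Path i v) :
    ∀ {i' : V} (k' : Fin (d i')) (p' : Path i' v),
      toX d X gen mp k p = toX d X gen mp k' p' → (⟨i, k, p⟩ : Bs d v) = ⟨i', k', p'⟩ := by
  induction p with
  | nil =>
    intro i' k' p' hh
    cases p' with
    | nil =>
      have := h.gen_inj _ hh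
      subst this
      rfl
    | cons p' e' => exact absurd hh.symm (h.mp_ne_gen _ _ _)
  | cons p e ih =>
    intro i' k' p' hh
    cases p' with
    | nil => exact absurd hh (h.mp_ne_gen _ _ _)
    | cons p' e' =>
      have h1 := h.mp_inj _ _ _ _ hh
      obtain ⟨h2, h3⟩ := Sigma.mk.inj h1
      subst h2
      obtain ⟨h4, h5⟩ := Prod.mk.inj (eq_of_heq h3)
      subst h4
      have h6 := ih k' p' h5
      obtain ⟨h7, h8⟩ := Sigma.mk.inj h6
      subst h7
      obtain ⟨h9, h10⟩ := Prod.mk.inj (eq_of_heq h8)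
      subst h9
      subst h10
      rfl

theorem toXB_bijective (h : IsFree d X gen mp) (v : V) :
    Function.Bijective (toXB d X gen mp v) := by
  constructor
  · rintro ⟨i, k, p⟩ ⟨i', k', p'⟩ hh
    exact toX_injective h k p k' p' hh
  · obtain ⟨ht, hht⟩ := h.ht
    have key : ∀ (n : ℕ) (w : V), ht w = n → ∀ x : X w, ∃ b, toXB d X gen mp w b = x := by
      intro n
      induction n using Nat.strong_induction_on with
      | _ n ih =>
        intro w hw x
        rcases h.surj w x with ⟨k, rfl⟩ | ⟨u, e, x', rfl⟩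
        · exact ⟨⟨w, k, Path.nil⟩, rfl⟩
        · obtain ⟨⟨i, k, p⟩, hb⟩ := ih (ht u) (hw ▸ hht _ _ e) u rfl x'
          refine ⟨⟨i, k, p.cons e⟩, ?_⟩
          show mp _ _ e (toX d X gen mp k p) = _
          rw [← hb]
          rfl
    intro x
    exact key _ v rfl x

/-- The bijection between the path basis and a free model. -/
noncomputable def eX (h : IsFree d X gen mp) (v : V) : Bs d v ≃ X v :=
  Equiv.ofBijective _ (toXB_bijective h v)

theorem eX_cons (h : IsFree d X gen mp) {v w : V} (e : v ⟶ w) (b : Bs d v) :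
    eX h w (consMap d e b) = mp v w e (eX h v b) := rfl

theorem eX_gen (h : IsFree d X gen mp) (v : V) (k : Fin (d v)) :
    eX h v ⟨v, k, Path.nil⟩ = gen v k := rfl

theorem eX_symm_mp (h : IsFree d X gen mp) {v w : V} (e : v ⟶ w) (x : X v) :
    (eX h w).symm (mp v w e x) = consMap d e ((eX h v).symm x) := by
  rw [Equiv.symm_apply_eq, eX_cons, Equiv.apply_symm_apply]

theorem eX_symm_gen (h : IsFree d X gen mp) (v : V) (k : Fin (d v)) :
    (eX h v).symm (gen v k) = ⟨v, k, Path.nil⟩ := by
  rw [Equiv.symm_apply_eq, eX_gen]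

section Mat

variable (K : Type) [Field K]

/-- The basis of the projective representation at `v` indexed by the model. -/
noncomputable def bas (h : IsFree d X gen mp) (v : V) : Module.Basis (X v) K (Bs d v →₀ K) :=
  Finsupp.basisSingleOne.reindex (eX h v)

theorem bas_apply (h : IsFree d X gen mp) (v : V) (x : X v) :
    bas K h v x = Finsupp.single ((eX h v).symm x) 1 := by
  simp [bas]

variable [∀ v, Fintype (X v)] [∀ v, DecidableEq (X v)]

/-- Endomorphisms at `v` as matrices over the model. -/
noncomputable def toM (h : IsFree d X gen mp) (v : V) :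
    ((Bs d v →₀ K) →ₗ[K] (Bs d v →₀ K)) ≃ₗ[K] Matrix (X v) (X v) K :=
  LinearMap.toMatrix (bas K h v) (bas K h v)

theorem toM_apply (h : IsFree d X gen mp) (v : V) (f : (Bs d v →₀ K) →ₗ[K] (Bs d v →₀ K))
    (y x : X v) :
    toM K h v f y x = f (Finsupp.single ((eX h v).symm x) 1) ((eX h v).symm y) := by
  rw [toM, LinearMap.toMatrix_apply, bas_apply]
  simp [bas]

theorem toM_comp (h : IsFree d X gen mp) (v : V) (f g : (Bs d v →₀ K) →ₗ[K] (Bs d v →₀ K)) :
    toM K h v (f.comp g) = toM K h v f * toM K h v g :=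
  LinearMap.toMatrix_comp _ _ _ f g

/-- Naturality in terms of matrices. -/
theorem natural_iff (h : IsFree d X gen mp) {v w : V} (e : v ⟶ w)
    (fv : (Bs d v →₀ K) →ₗ[K] (Bs d v →₀ K)) (fw : (Bs d w →₀ K) →ₗ[K] (Bs d w →₀ K)) :
    fw.comp (Finsupp.lmapDomain K K (consMap d e)) =
      (Finsupp.lmapDomain K K (consMap d e)).comp fv ↔
    (∀ x x' : X v, toM K h w fw (mp v w e x') (mp v w e x) = toM K h v fv x' x) ∧
    (∀ (x : X v) (y : X w), (∀ x' : X v, mp v w e x' ≠ y) →
      toM K h w fw y (mp v w e x) = 0) := by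
  constructor
  · intro hn
    have key : ∀ x : X v, fw (Finsupp.single ((eX h w).symm (mp v w e x)) 1) =
        Finsupp.mapDomain (consMap d e) (fv (Finsupp.single ((eX h v).symm x) 1)) := by
      intro x
      have := congrArg (fun F => F (Finsupp.single ((eX h v).symm x) (1 : K))) hn
      simp only [LinearMap.comp_apply, Finsupp.lmapDomain_apply, Finsupp.mapDomain_single] at this
      rw [eX_symm_mp]
      exact this
    constructor
    · intro x x'
      rw [toM_apply, toM_apply, key, eX_symm_mp]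
      exact Finsupp.mapDomain_apply (consMap_injective d e) _ _
    · intro x y hy
      rw [toM_apply, key]
      apply Finsupp.mapDomain_of_notMem_range
      rintro ⟨b, hb⟩
      apply hy (eX h v b)
      rw [← eX_cons h, hb, Equiv.apply_symm_apply]
  · rintro ⟨h1, h2⟩
    apply Finsupp.lhom_ext'
    intro b
    apply LinearMap.ext_ring
    simp only [LinearMap.comp_apply, Finsupp.lsingle_apply, Finsupp.lmapDomain_apply,
      Finsupp.mapDomain_single]
    ext c
    obtain ⟨x, rfl⟩ : ∃ x, (eX h v).symm x = b := ⟨eX h v b, by simp⟩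
    obtain ⟨y, rfl⟩ : ∃ y, (eX h w).symm y = c := ⟨eX h w c, by simp⟩
    rw [← eX_symm_mp, ← toM_apply]
    by_cases hy : ∃ x', mp v w e x' = y
    · obtain ⟨x', rfl⟩ := hy
      rw [h1, toM_apply, eX_symm_mp]
      exact (Finsupp.mapDomain_apply (consMap_injective d e) _ _).symm
    · push Not at hy
      rw [h2 x y hy]
      symm
      apply Finsupp.mapDomain_of_notMem_range
      rintro ⟨b, hb⟩
      apply hy (eX h v b)
      rw [← eX_cons h, hb, Equiv.apply_symm_apply]

/-- The radical condition in terms of matrices. -/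
theorem radical_iff (h : IsFree d X gen mp) (v : V) (f : (Bs d v →₀ K) →ₗ[K] (Bs d v →₀ K)) :
    (LinearMap.range f ≤
      ⨆ (u : V) (e : u ⟶ v), LinearMap.range (Finsupp.lmapDomain K K (consMap d e))) ↔
    ∀ (k : Fin (d v)) (x : X v), toM K h v f (gen v k) x = 0 := by
  have key : ∀ m : Bs d v →₀ K,
      m ∈ (⨆ (u : V) (e : u ⟶ v), LinearMap.range (Finsupp.lmapDomain K K (consMap d e))) ↔
      ∀ k : Fin (d v), m ⟨v, k, Path.nil⟩ = 0 := by
    intro m
    constructor
    · intro hm k
      have hle : (⨆ (u : V) (e : u ⟶ v),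
          LinearMap.range (Finsupp.lmapDomain K K (consMap d e))) ≤
          LinearMap.ker (Finsupp.lapply (R := K) (M := K) (⟨v, k, Path.nil⟩ : Bs d v)) := by
        refine iSup_le fun u => iSup_le fun e => ?_
        rintro _ ⟨l, rfl⟩
        rw [LinearMap.mem_ker, Finsupp.lapply_apply, Finsupp.lmapDomain_apply]
        apply Finsupp.mapDomain_of_notMem_range
        rintro ⟨⟨i, k', p⟩, hb⟩
        simp only [consMap] at hb
        obtain ⟨h1, h2⟩ := Sigma.mk.inj hb
        subst h1
        obtain ⟨h3, h4⟩ := Prod.mk.inj (eq_of_heq h2)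
        exact Path.cons_ne_nil _ _ h4
      exact hle hm
    · intro hm
      rw [← Finsupp.sum_single m]
      apply Submodule.sum_mem
      rintro ⟨i, k, p⟩ hb
      cases p with
      | nil => exact absurd (hm k) (Finsupp.mem_support_iff.mp hb)
      | cons p e =>
        refine Submodule.mem_iSup_of_mem _ (Submodule.mem_iSup_of_mem e ?_)
        refine ⟨Finsupp.single ⟨i, k, p⟩ (m ⟨i, k, p.cons e⟩), ?_⟩
        rw [Finsupp.lmapDomain_apply, Finsupp.mapDomain_single]
  constructor
  · intro hr k x
    rw [toM_apply, eX_symm_gen]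
    exact (key _).1 (hr ⟨_, rfl⟩) k
  · rintro hr _ ⟨m, rfl⟩
    rw [key]
    intro k
    have h0 : (Finsupp.lapply (R := K) (M := K) (⟨v, k, Path.nil⟩ : Bs d v)).comp f = 0 := by
      apply Finsupp.lhom_ext'
      intro b
      apply LinearMap.ext_ring
      obtain ⟨x, rfl⟩ : ∃ x, (eX h v).symm x = b := ⟨eX h v b, by simp⟩
      have := hr k x
      rw [toM_apply, eX_symm_gen] at this
      simpa using this
    exact congrArg (fun F => F m) h0

/-- The set of commuting pairs of radical endomorphisms, in matrix form. -/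
def MatPair (d : V → ℕ) (X : V → Type) (gen : ∀ v, Fin (d v) → X v)
    (mp : ∀ v w : V, (v ⟶ w) → X v → X w) (K : Type) [Field K]
    [∀ v, Fintype (X v)] : Type :=
  {FG : (∀ v : V, Matrix (X v) (X v) K) × (∀ v : V, Matrix (X v) (X v) K) //
    (∀ (v w : V) (e : v ⟶ w),
      (∀ x x' : X v, FG.1 w (mp v w e x') (mp v w e x) = FG.1 v x' x) ∧
      (∀ (x : X v) (y : X w), (∀ x' : X v, mp v w e x' ≠ y) → FG.1 w y (mp v w e x) = 0)) ∧
    (∀ (v w : V) (e : v ⟶ w),
      (∀ x x' : X v, FG.2 w (mp v w e x') (mp v w e x) = FG.2 v x' x) ∧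
      (∀ (x : X v) (y : X w), (∀ x' : X v, mp v w e x' ≠ y) → FG.2 w y (mp v w e x) = 0)) ∧
    (∀ (v : V) (k : Fin (d v)) (x : X v), FG.1 v (gen v k) x = 0) ∧
    (∀ (v : V) (k : Fin (d v)) (x : X v), FG.2 v (gen v k) x = 0) ∧
    (∀ v : V, FG.1 v * FG.2 v = FG.2 v * FG.1 v)}

theorem card_eq_mat (h : IsFree d X gen mp) :
    Nat.card
      {fg : (∀ v : V, ((Σ i : V, Fin (d i) × Quiver.Path i v) →₀ K) →ₗ[K]
                ((Σ i : V, Fin (d i) × Quiver.Path i v) →₀ K)) ×
            (∀ v : V, ((Σ i : V, Fin (d i) × Quiver.Path i v) →₀ K) →ₗ[K]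
                ((Σ i : V, Fin (d i) × Quiver.Path i v) →₀ K)) //
        (∀ (v w : V) (e : v ⟶ w),
          (fg.1 w).comp (Finsupp.lmapDomain K K
            (fun x : (Σ i : V, Fin (d i) × Quiver.Path i v) =>
              (⟨x.1, x.2.1, x.2.2.cons e⟩ : Σ i : V, Fin (d i) × Quiver.Path i w))) =
          (Finsupp.lmapDomain K K
            (fun x : (Σ i : V, Fin (d i) × Quiver.Path i v) =>
              (⟨x.1, x.2.1, x.2.2.cons e⟩ : Σ i : V, Fin (d i) × Quiver.Path i w))).comp
            (fg.1 v)) ∧
        (∀ (v w : V) (e : v ⟶ w),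
          (fg.2 w).comp (Finsupp.lmapDomain K K
            (fun x : (Σ i : V, Fin (d i) × Quiver.Path i v) =>
              (⟨x.1, x.2.1, x.2.2.cons e⟩ : Σ i : V, Fin (d i) × Quiver.Path i w))) =
          (Finsupp.lmapDomain K K
            (fun x : (Σ i : V, Fin (d i) × Quiver.Path i v) =>
              (⟨x.1, x.2.1, x.2.2.cons e⟩ : Σ i : V, Fin (d i) × Quiver.Path i w))).comp
            (fg.2 v)) ∧
        (∀ v : V, LinearMap.range (fg.1 v) ≤
          ⨆ (u : V) (e : u ⟶ v), LinearMap.range (Finsupp.lmapDomain K K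
            (fun x : (Σ i : V, Fin (d i) × Quiver.Path i u) =>
              (⟨x.1, x.2.1, x.2.2.cons e⟩ : Σ i : V, Fin (d i) × Quiver.Path i v)))) ∧
        (∀ v : V, LinearMap.range (fg.2 v) ≤
          ⨆ (u : V) (e : u ⟶ v), LinearMap.range (Finsupp.lmapDomain K K
            (fun x : (Σ i : V, Fin (d i) × Quiver.Path i u) =>
              (⟨x.1, x.2.1, x.2.2.cons e⟩ : Σ i : V, Fin (d i) × Quiver.Path i v)))) ∧
        (∀ v : V, (fg.1 v).comp (fg.2 v) = (fg.2 v).comp (fg.1 v))} =
    Nat.card (MatPair d X gen mp K) := by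
  apply Nat.card_congr
  refine Equiv.subtypeEquiv
    (Equiv.prodCongr (Equiv.piCongrRight fun v => (toM K h v).toEquiv)
      (Equiv.piCongrRight fun v => (toM K h v).toEquiv)) ?_
  rintro ⟨f, g⟩
  have hcomm : ∀ v : V, (f v).comp (g v) = (g v).comp (f v) ↔
      toM K h v (f v) * toM K h v (g v) = toM K h v (g v) * toM K h v (f v) := by
    intro v
    rw [← toM_comp, ← toM_comp]
    exact (toM K h v).injective.eq_iff.symm
  simp only [Equiv.prodCongr_apply, Prod.map, Equiv.piCongrRight_apply, Pi.map]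
  refine and_congr ?_ (and_congr ?_ (and_congr ?_ (and_congr ?_ ?_)))
  · exact forall_congr' fun v => forall_congr' fun w => forall_congr' fun e =>
      natural_iff K h e (f v) (f w)
  · exact forall_congr' fun v => forall_congr' fun w => forall_congr' fun e =>
      natural_iff K h e (g v) (g w)
  · exact forall_congr' fun v => radical_iff K h v (f v)
  · exact forall_congr' fun v => radical_iff K h v (g v)
  · exact forall_congr' hcomm

end Mat

end Model

end Pool.Agent.Lib_helper49.INS
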