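import Mathlib
import Pool.Agent.Lib_helper49.INS.QModel

set_option autoImplicit false

/-! # The explicit quivers: branches `a`, branches `b` and multiple arrows between them -/

namespace Pool.Agent.Lib_helper49.INS

open Quiver

/-- Vertices: for each `a` a path `a0 → a1 → a2`, for each `b` a path `b0 → b1 → b2`. -/
inductive Vt {A B : Type} (m : A → B → ℕ) : Type
  | a0 (a : A) : Vt m
  | a1 (a : A) : Vt m
  | a2 (a : A) : Vt m
  | b0 (b : B) : Vt m
  | b1 (b : B) : Vt m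
  | b2 (b : B) : Vt m

/-- Arrows: the arrows of the branches and `m a b` arrows from `a2` to `b0`. -/
inductive Hm {A B : Type} (m : A → B → ℕ) : Vt m → Vt m → Type
  | a01 (a : A) : Hm m (.a0 a) (.a1 a)
  | a12 (a : A) : Hm m (.a1 a) (.a2 a)
  | b01 (b : B) : Hm m (.b0 b) (.b1 b)
  | b12 (b : B) : Hm m (.b1 b) (.b2 b)
  | e (a : A) (b : B) (k : Fin (m a b)) : Hm m (.a2 a) (.b0 b)

instance {A B : Type} (m : A → B → ℕ) : Quiver.{0} (Vt m) := ⟨Hm m⟩

/-- Height of a vertex. -/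
def Vt.ht {A B : Type} {m : A → B → ℕ} : Vt m → ℕ
  | .a0 _ => 0
  | .a1 _ => 1
  | .a2 _ => 2
  | .b0 _ => 3
  | .b1 _ => 4
  | .b2 _ => 5

theorem Vt.ht_lt {A B : Type} {m : A → B → ℕ} {v w : Vt m} (e : v ⟶ w) : v.ht < w.ht := by
  change Hm m _ _ at e
  cases e <;> simp [Vt.ht]

theorem Vt.ht_path {A B : Type} {m : A → B → ℕ} {v w : Vt m} (p : Path v w) :
    v.ht + p.length ≤ w.ht := by
  induction p with
  | nil => simp
  | cons p e ih =>
    have := Vt.ht_lt e
    simp only [Path.length_cons]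
    omega

instance {A B : Type} [Finite A] [Finite B] (m : A → B → ℕ) : Finite (Vt m) := by
  let f : Vt m → (A ⊕ B) × Fin 6 := fun v => match v with
    | .a0 a => (.inl a, 0)
    | .a1 a => (.inl a, 1)
    | .a2 a => (.inl a, 2)
    | .b0 b => (.inr b, 3)
    | .b1 b => (.inr b, 4)
    | .b2 b => (.inr b, 5)
  apply Finite.of_injective f
  intro v w h
  cases v <;> cases w <;> simp_all [f]

instance {A B : Type} (m : A → B → ℕ) (v w : Vt m) : Finite (v ⟶ w) := by
  have key : ∀ (a : A) (b : B), Finite (Hm m (.a2 a) (.b0 b)) := by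
    intro a b
    let f : Fin (m a b) → Hm m (.a2 a) (.b0 b) := fun k => Hm.e a b k
    apply Finite.of_surjective f
    intro x
    cases x with
    | e _ _ k => exact ⟨k, rfl⟩
  by_cases hh : Subsingleton (v ⟶ w)
  · infer_instance
  · cases v <;> cases w <;>
      first
      | exact key _ _
      | (exfalso; apply hh; constructor; intro x y; change Hm m _ _ at x y;
         cases x <;> cases y <;> rfl)

/-- The index type of a three-level module with level sizes `p0, p1, p2`. -/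
abbrev TA (p0 p1 p2 : ℕ) : Type := Fin p2 ⊕ (Fin p1 ⊕ Fin p0)

/-- The level. -/
def lev {p0 p1 p2 : ℕ} : TA p0 p1 p2 → ℕ
  | .inl _ => 2
  | .inr (.inl _) => 1
  | .inr (.inr _) => 0

/-- Strictly level-lowering matrices. -/
def Low {p0 p1 p2 : ℕ} {K : Type} [Field K] (x : Matrix (TA p0 p1 p2) (TA p0 p1 p2) K) : Prop :=
  ∀ i j, ¬ (lev i < lev j) → x i j = 0

/-- Commuting pairs of strictly level-lowering matrices. -/
abbrev PA (p0 p1 p2 : ℕ) (K : Type) [Field K] : Type :=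
  {xy : Matrix (TA p0 p1 p2) (TA p0 p1 p2) K × Matrix (TA p0 p1 p2) (TA p0 p1 p2) K //
    Low xy.1 ∧ Low xy.2 ∧ xy.1 * xy.2 = xy.2 * xy.1}

/-- The linear fibre over two commuting pairs. -/
abbrev Zs {p0 p1 p2 h0 h1 h2 : ℕ} {K : Type} [Field K] (xa : PA p0 p1 p2 K) (xb : PA h0 h1 h2 K) :
    Type :=
  {z : Matrix (TA p0 p1 p2) (TA h0 h1 h2) K × Matrix (TA p0 p1 p2) (TA h0 h1 h2) K //
    z.1 * xb.1.2 + xa.1.1 * z.2 = z.2 * xb.1.1 + xa.1.2 * z.1}

section

variable {A B : Type} (p0 p1 p2 : ℕ) (h0 h1 h2 : B → ℕ) (m : A → B → ℕ)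

/-- The summand vector. -/
def dv : Vt m → ℕ
  | .a0 _ => p0
  | .a1 _ => p1
  | .a2 _ => p2
  | .b0 b => h0 b
  | .b1 b => h1 b
  | .b2 b => h2 b

/-- The set of multiple arrows into branch `b`. -/
abbrev Sb (b : B) : Type := Σ a : A, Fin (m a b)

/-- The explicit model. -/
def Xv : Vt m → Type
  | .a0 _ => Fin p0
  | .a1 _ => Fin p1 ⊕ Fin p0
  | .a2 _ => TA p0 p1 p2
  | .b0 b => Fin (h0 b) ⊕ (TA p0 p1 p2 × Sb m b)
  | .b1 b => Fin (h1 b) ⊕ (Fin (h0 b) ⊕ (TA p0 p1 p2 × Sb m b))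
  | .b2 b => Fin (h2 b) ⊕ (Fin (h1 b) ⊕ (Fin (h0 b) ⊕ (TA p0 p1 p2 × Sb m b)))

/-- Generators of the model. -/
def genv : ∀ v : Vt m, Fin (dv p0 p1 p2 h0 h1 h2 m v) → Xv p0 p1 p2 h0 h1 h2 m v
  | .a0 _ => fun k => k
  | .a1 _ => fun k => Sum.inl k
  | .a2 _ => fun k => Sum.inl k
  | .b0 _ => fun k => Sum.inl k
  | .b1 _ => fun k => Sum.inl k
  | .b2 _ => fun k => Sum.inl k

/-- Arrow maps of the model. -/
def mpv : ∀ v w : Vt m, (v ⟶ w) → Xv p0 p1 p2 h0 h1 h2 m v → Xv p0 p1 p2 h0 h1 h2 m w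
  | _, _, .a01 _ => fun x => Sum.inr x
  | _, _, .a12 _ => fun x => Sum.inr x
  | _, _, .b01 _ => fun x => Sum.inr x
  | _, _, .b12 _ => fun x => Sum.inr x
  | _, _, .e a _ k => fun x => Sum.inr (x, ⟨a, k⟩)

theorem isFree_v : IsFree (dv p0 p1 p2 h0 h1 h2 m) (Xv p0 p1 p2 h0 h1 h2 m)
    (genv p0 p1 p2 h0 h1 h2 m) (mpv p0 p1 p2 h0 h1 h2 m) where
  gen_inj := by
    intro v
    cases v with
    | a0 a => exact fun x y h => h
    | a1 a => exact fun x y h => Sum.inl_injective h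
    | a2 a => exact fun x y h => Sum.inl_injective h
    | b0 a => exact fun x y h => Sum.inl_injective h
    | b1 a => exact fun x y h => Sum.inl_injective h
    | b2 a => exact fun x y h => Sum.inl_injective h
  mp_ne_gen := by
    intro v w e x k
    change Hm m _ _ at e
    cases e <;> exact Sum.inr_ne_inl
  mp_inj := by
    intro u v w e e' x x' h
    change Hm m _ _ at e e'
    cases e with
    | a01 a => cases e' with
      | a01 _ => cases Sum.inr_injective h; rfl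
    | a12 a => cases e' with
      | a12 _ => cases Sum.inr_injective h; rfl
    | b01 a => cases e' with
      | b01 _ => cases Sum.inr_injective h; rfl
    | b12 a => cases e' with
      | b12 _ => cases Sum.inr_injective h; rfl
    | e a b k => cases e' with
      | e a' _ k' =>
        have h1 := Sum.inr_injective h
        obtain ⟨h2, h3⟩ := Prod.mk.inj h1
        obtain ⟨h4, h5⟩ := Sigma.mk.inj h3
        subst h4
        obtain rfl := eq_of_heq h5
        obtain rfl := h2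
        rfl
  surj := by
    intro w x
    cases w with
    | a0 a => exact Or.inl ⟨x, rfl⟩
    | a1 a => rcases x with x | x
              · exact Or.inl ⟨x, rfl⟩
              · exact Or.inr ⟨_, Hm.a01 a, x, rfl⟩
    | a2 a => rcases x with x | x
              · exact Or.inl ⟨x, rfl⟩
              · exact Or.inr ⟨_, Hm.a12 a, x, rfl⟩
    | b0 b => rcases x with x | ⟨x, ⟨a, k⟩⟩
              · exact Or.inl ⟨x, rfl⟩
              · exact Or.inr ⟨_, Hm.e a b k, x, rfl⟩
    | b1 b => rcases x with x | x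
              · exact Or.inl ⟨x, rfl⟩
              · exact Or.inr ⟨_, Hm.b01 b, x, rfl⟩
    | b2 b => rcases x with x | x
              · exact Or.inl ⟨x, rfl⟩
              · exact Or.inr ⟨_, Hm.b12 b, x, rfl⟩
  ht := ⟨Vt.ht, fun _ _ e => Vt.ht_lt e⟩

instance [Finite A] : ∀ v : Vt m, Finite (Xv p0 p1 p2 h0 h1 h2 m v)
  | .a0 _ => inferInstanceAs (Finite (Fin p0))
  | .a1 _ => inferInstanceAs (Finite (Fin p1 ⊕ Fin p0))
  | .a2 _ => inferInstanceAs (Finite (TA p0 p1 p2))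
  | .b0 b => inferInstanceAs (Finite (Fin (h0 b) ⊕ (TA p0 p1 p2 × Sb m b)))
  | .b1 b => inferInstanceAs (Finite (Fin (h1 b) ⊕ (Fin (h0 b) ⊕ (TA p0 p1 p2 × Sb m b))))
  | .b2 b => inferInstanceAs
      (Finite (Fin (h2 b) ⊕ (Fin (h1 b) ⊕ (Fin (h0 b) ⊕ (TA p0 p1 p2 × Sb m b)))))

end

/-- Regrouping of the index type of `b2`. -/
def re {H0 H1 H2 E : Type} : (H2 ⊕ (H1 ⊕ (H0 ⊕ E))) ≃ ((H2 ⊕ (H1 ⊕ H0)) ⊕ E) where
  toFun
    | .inl k => .inl (.inl k)
    | .inr (.inl k) => .inl (.inr (.inl k))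
    | .inr (.inr (.inl k)) => .inl (.inr (.inr k))
    | .inr (.inr (.inr e)) => .inr e
  invFun
    | .inl (.inl k) => .inl k
    | .inl (.inr (.inl k)) => .inr (.inl k)
    | .inl (.inr (.inr k)) => .inr (.inr (.inl k))
    | .inr e => .inr (.inr (.inr e))
  left_inv := by rintro (k | k | k | e) <;> rfl
  right_inv := by rintro ((k | k | k) | e) <;> rfl

section

variable {A B : Type} [Fintype A] [DecidableEq A] (p0 p1 p2 : ℕ) (h0 h1 h2 : B → ℕ)
  (m : A → B → ℕ) (K : Type) [Field K]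

/-- The big matrix at `b2`. -/
def big {p0 p1 p2 h0 h1 h2 : ℕ} {S : Type} [DecidableEq S] {K : Type} [Field K]
    (xs : S → Matrix (TA p0 p1 p2) (TA p0 p1 p2) K)
    (xb : Matrix (TA h0 h1 h2) (TA h0 h1 h2) K)
    (z : S → Matrix (TA p0 p1 p2) (TA h0 h1 h2) K) :
    Matrix (Fin h2 ⊕ (Fin h1 ⊕ (Fin h0 ⊕ (TA p0 p1 p2 × S))))
      (Fin h2 ⊕ (Fin h1 ⊕ (Fin h0 ⊕ (TA p0 p1 p2 × S)))) K :=
  (Matrix.fromBlocks xb 0 (Matrix.of fun (xs : TA p0 p1 p2 × S) g => z xs.2 xs.1 g)
    (Matrix.blockDiagonal xs)).submatrix re re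

theorem big_mul {p0 p1 p2 h0 h1 h2 : ℕ} {S : Type} [Fintype S] [DecidableEq S]
    {K : Type} [Field K]
    (xs ys : S → Matrix (TA p0 p1 p2) (TA p0 p1 p2) K)
    (xb yb : Matrix (TA h0 h1 h2) (TA h0 h1 h2) K)
    (z w : S → Matrix (TA p0 p1 p2) (TA h0 h1 h2) K) :
    big xs xb z * big ys yb w =
      big (fun s => xs s * ys s) (xb * yb) (fun s => z s * yb + xs s * w s) := by
  unfold big
  rw [Matrix.submatrix_mul_equiv, Matrix.fromBlocks_multiply]
  congr 1
  have hd : Matrix.blockDiagonal xs * Matrix.blockDiagonal ys =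
      Matrix.blockDiagonal (fun s => xs s * ys s) := (Matrix.blockDiagonal_mul _ _).symm
  rw [hd]
  simp only [Matrix.zero_mul, add_zero, Matrix.mul_zero, zero_add]
  congr 1
  ext ⟨x, s⟩ g
  simp only [Matrix.add_apply, Matrix.mul_apply, Matrix.of_apply, Fintype.sum_prod_type,
    Matrix.blockDiagonal_apply]
  congr 1
  apply Finset.sum_congr rfl
  intro y _
  rw [Finset.sum_eq_single s]
  · simp
  · intro t _ ht
    rw [if_neg (fun h => ht h.symm), zero_mul]
  · intro h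
    exact absurd (Finset.mem_univ _) h

theorem big_inj {p0 p1 p2 h0 h1 h2 : ℕ} {S : Type} [Fintype S] [DecidableEq S]
    {K : Type} [Field K]
    {xs ys : S → Matrix (TA p0 p1 p2) (TA p0 p1 p2) K}
    {xb yb : Matrix (TA h0 h1 h2) (TA h0 h1 h2) K}
    {z w : S → Matrix (TA p0 p1 p2) (TA h0 h1 h2) K} (h : big xs xb z = big ys yb w) :
    xs = ys ∧ xb = yb ∧ z = w := by
  unfold big at h
  have h' := congrArg (fun M => M.submatrix re.symm re.symm) h
  simp only [Matrix.submatrix_submatrix, Equiv.self_comp_symm, Matrix.submatrix_id_id] at h'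
  rw [Matrix.fromBlocks_inj] at h'
  obtain ⟨h1, -, h2, h3⟩ := h'
  refine ⟨Matrix.blockDiagonal_injective h3, h1, ?_⟩
  funext s
  ext x g
  exact congrFun (congrFun h2 (x, s)) g

end

end Pool.Agent.Lib_helper49.INS
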