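import Mathlib
import Pool.Agent.Lib_helper49.INS.QEquiv

set_option autoImplicit false

/-! # The count as a sum over commuting pairs of the branches -/

namespace Pool.Agent.Lib_helper49.INS

instance finPA (p0 p1 p2 : ℕ) (K : Type) [Field K] [Finite K] : Finite (PA p0 p1 p2 K) := by
  unfold PA
  have : Finite (Matrix (TA p0 p1 p2) (TA p0 p1 p2) K) := by unfold Matrix; infer_instance
  infer_instance

instance finZs {p0 p1 p2 h0 h1 h2 : ℕ} {K : Type} [Field K] [Finite K] (xa : PA p0 p1 p2 K)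
    (xb : PA h0 h1 h2 K) : Finite (Zs xa xb) := by
  unfold Zs
  have : Finite (Matrix (TA p0 p1 p2) (TA h0 h1 h2) K) := by unfold Matrix; infer_instance
  infer_instance

noncomputable instance fintypePA (p0 p1 p2 : ℕ) (K : Type) [Field K] [Fintype K] :
    Fintype (PA p0 p1 p2 K) := Fintype.ofFinite _

section

variable {A B : Type} [Fintype A] [DecidableEq A] [Fintype B] [DecidableEq B]
  (p0 p1 p2 : ℕ) (h0 h1 h2 : B → ℕ) (m : A → B → ℕ) (K : Type) [Field K] [Fintype K]

theorem card_tot :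
    Nat.card (Tot p0 p1 p2 h0 h1 h2 m K) =
      ∑ ξ : (A → PA p0 p1 p2 K) × (∀ b : B, PA (h0 b) (h1 b) (h2 b) K),
        ∏ ab : A × B, Nat.card (Zs (ξ.1 ab.1) (ξ.2 ab.2)) ^ m ab.1 ab.2 := by
  unfold Tot
  rw [Nat.card_sigma]
  apply Finset.sum_congr rfl
  intro ξ _
  rw [Nat.card_pi, Fintype.prod_prod_type_right]
  apply Finset.prod_congr rfl
  intro b _
  rw [Nat.card_pi, Fintype.prod_sigma]
  apply Finset.prod_congr rfl
  intro a _
  simp only [Finset.prod_const, Finset.card_univ, Fintype.card_fin]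

end

end Pool.Agent.Lib_helper49.INS
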