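import Mathlib
import Pool.Agent.Lib_helper49.INS.QLow

set_option autoImplicit false

/-! # Explicit modules realizing given points and lines -/

namespace Pool.Agent.Lib_helper49.INS

open Matrix

section

variable {K : Type} [Field K]

/-- First operator of the module with form `l`. -/
def xl (l : Fin 3 → K) : Matrix (TA 1 2 1) (TA 1 2 1) K
  | .inr (.inl i), .inl _ => if i = 0 then 1 else 0
  | .inr (.inr _), .inr (.inl j) => if j = 0 then l 0 else l 1
  | _, _ => 0

/-- Second operator of the module with form `l`. -/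
def yl (l : Fin 3 → K) : Matrix (TA 1 2 1) (TA 1 2 1) K
  | .inr (.inl i), .inl _ => if i = 1 then 1 else 0
  | .inr (.inr _), .inr (.inl j) => if j = 0 then l 1 else l 2
  | _, _ => 0

theorem low_xl (l : Fin 3 → K) : Low (xl l) := by
  intro i j h
  rcases i with i | i | i <;> rcases j with j | j | j <;>
    first
    | rfl
    | (exfalso; exact h (by simp [lev]))

theorem low_yl (l : Fin 3 → K) : Low (yl l) := by
  intro i j h
  rcases i with i | i | i <;> rcases j with j | j | j <;>
    first
    | rfl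
    | (exfalso; exact h (by simp [lev]))

theorem comm_l (l : Fin 3 → K) : xl l * yl l = yl l * xl l := by
  ext i j
  rw [Matrix.mul_apply, Matrix.mul_apply]
  simp only [Fintype.sum_sum_type, Fin.sum_univ_two, Fin.sum_univ_one]
  rcases i with i | i | i <;> rcases j with j | j | j <;> simp [xl, yl]

/-- The module with form `l`. -/
def etaL (l : Fin 3 → K) : PA 1 2 1 K := ⟨(xl l, yl l), low_xl l, low_yl l, comm_l l⟩

theorem lam_etaL (l : Fin 3 → K) : lam (etaL l) = l := by
  ext i
  fin_cases i
  · show (xl l * xl l) (Sum.inr (Sum.inr 0)) (Sum.inl 0) = l 0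
    rw [Matrix.mul_apply]
    simp only [Fintype.sum_sum_type, Fin.sum_univ_two, Fin.sum_univ_one]
    simp [xl]
  · show (xl l * yl l) (Sum.inr (Sum.inr 0)) (Sum.inl 0) = l 1
    rw [Matrix.mul_apply]
    simp only [Fintype.sum_sum_type, Fin.sum_univ_two, Fin.sum_univ_one]
    simp [xl, yl]
  · show (yl l * yl l) (Sum.inr (Sum.inr 0)) (Sum.inl 0) = l 2
    rw [Matrix.mul_apply]
    simp only [Fintype.sum_sum_type, Fin.sum_univ_two, Fin.sum_univ_one]
    simp [yl]

/-- The trivial one-dimensional module. -/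
def eta0 : PA 1 0 0 K := ⟨(0, 0), fun _ _ _ => rfl, fun _ _ _ => rfl, rfl⟩

/-- First operator of the module with structure constants `C`. -/
def xC (C : Fin 2 → Fin 3 → K) : Matrix (TA 2 2 1) (TA 2 2 1) K
  | .inr (.inl i), .inl _ => if i = 0 then 1 else 0
  | .inr (.inr k), .inr (.inl j) => if j = 0 then C k 0 else C k 1
  | _, _ => 0

/-- Second operator of the module with structure constants `C`. -/
def yC (C : Fin 2 → Fin 3 → K) : Matrix (TA 2 2 1) (TA 2 2 1) K
  | .inr (.inl i), .inl _ => if i = 1 then 1 else 0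
  | .inr (.inr k), .inr (.inl j) => if j = 0 then C k 1 else C k 2
  | _, _ => 0

theorem low_xC (C : Fin 2 → Fin 3 → K) : Low (xC C) := by
  intro i j h
  rcases i with i | i | i <;> rcases j with j | j | j <;>
    first
    | rfl
    | (exfalso; exact h (by simp [lev]))

theorem low_yC (C : Fin 2 → Fin 3 → K) : Low (yC C) := by
  intro i j h
  rcases i with i | i | i <;> rcases j with j | j | j <;>
    first
    | rfl
    | (exfalso; exact h (by simp [lev]))

theorem comm_C (C : Fin 2 → Fin 3 → K) : xC C * yC C = yC C * xC C := by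
  ext i j
  rw [Matrix.mul_apply, Matrix.mul_apply]
  simp only [Fintype.sum_sum_type, Fin.sum_univ_two, Fin.sum_univ_one]
  rcases i with i | i | i <;> rcases j with j | j | j <;> simp [xC, yC]

/-- The module with structure constants `C`. -/
def xiC (C : Fin 2 → Fin 3 → K) : PA 2 2 1 K := ⟨(xC C, yC C), low_xC C, low_yC C, comm_C C⟩

/-- Vectors in terms of coordinates. -/
def vec5 (a b c : K) (w : Fin 2 → K) : TA 2 2 1 → K
  | .inl _ => a
  | .inr (.inl i) => if i = 0 then b else c
  | .inr (.inr k) => w k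

theorem xC_vec5 (C : Fin 2 → Fin 3 → K) (a b c : K) (w : Fin 2 → K) :
    xC C *ᵥ vec5 a b c w = vec5 0 a 0 (fun k => C k 0 * b + C k 1 * c) := by
  ext i
  rw [mulVec, dotProduct]
  simp only [Fintype.sum_sum_type, Fin.sum_univ_two, Fin.sum_univ_one]
  rcases i with i | i | i <;> simp [xC, vec5]

theorem yC_vec5 (C : Fin 2 → Fin 3 → K) (a b c : K) (w : Fin 2 → K) :
    yC C *ᵥ vec5 a b c w = vec5 0 0 a (fun k => C k 1 * b + C k 2 * c) := by
  ext i
  rw [mulVec, dotProduct]
  simp only [Fintype.sum_sum_type, Fin.sum_univ_two, Fin.sum_univ_one]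
  rcases i with i | i | i
  · simp [yC, vec5]
  · fin_cases i <;> simp [yC, vec5]
  · simp [yC, vec5]

theorem topv_eq : (topv : TA 2 2 1 → K) = vec5 1 0 0 0 := by
  ext i
  rcases i with i | i | i
  · rw [Subsingleton.elim i 0]
    simp [topv, vec5]
  · simp [topv, vec5]
  · simp [topv, vec5]

theorem Phi_C (C : Fin 2 → Fin 3 → K) (c : Fin 6 → K) :
    Phi (xC C) (yC C) topv c =
      vec5 (c 0) (c 1) (c 2) (fun k => C k 0 * c 3 + C k 1 * c 4 + C k 2 * c 5) := by
  rw [Phi_apply, topv_eq]
  simp only [xC_vec5, yC_vec5]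
  ext i
  rcases i with i | i | i
  · simp [vec5]
  · fin_cases i <;> simp [vec5]
  · simp [vec5]
    ring

theorem cycRel_C (C : Fin 2 → Fin 3 → K) (u : Fin 3 → K)
    (hs : ∀ w : Fin 2 → K, ∃ d : Fin 3 → K, ∀ k, C k 0 * d 0 + C k 1 * d 1 + C k 2 * d 2 = w k)
    (hu : ∀ k, C k 0 * u 0 + C k 1 * u 1 + C k 2 * u 2 = 0)
    (hk : ∀ d : Fin 3 → K, (∀ k, C k 0 * d 0 + C k 1 * d 1 + C k 2 * d 2 = 0) →
      ∃ t : K, d = t • u) :
    CycRel (xiC C).1.1 (xiC C).1.2 topv u where
  surj := by
    intro x
    obtain ⟨d, hd⟩ := hs (fun k => x (Sum.inr (Sum.inr k)))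
    refine ⟨![x (Sum.inl 0), x (Sum.inr (Sum.inl 0)), x (Sum.inr (Sum.inl 1)), d 0, d 1, d 2], ?_⟩
    show Phi (xC C) (yC C) topv _ = x
    rw [Phi_C]
    ext i
    rcases i with i | i | i
    · rw [Subsingleton.elim i 0]
      rfl
    · fin_cases i <;> simp [vec5]
    · exact hd i
  rel := by
    show Phi (xC C) (yC C) topv _ = 0
    rw [Phi_C]
    ext i
    rcases i with i | i | i
    · rfl
    · fin_cases i <;> simp [vec5]
    · exact hu i
  ker := by
    intro c hc
    change Phi (xC C) (yC C) topv c = 0 at hc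
    rw [Phi_C] at hc
    have h0 : c 0 = 0 := congrFun hc (Sum.inl 0)
    have h1 : c 1 = 0 := by simpa [vec5] using congrFun hc (Sum.inr (Sum.inl 0))
    have h2 : c 2 = 0 := by simpa [vec5] using congrFun hc (Sum.inr (Sum.inl 1))
    have h3 : ∀ k, C k 0 * c 3 + C k 1 * c 4 + C k 2 * c 5 = 0 := fun k =>
      congrFun hc (Sum.inr (Sum.inr k))
    obtain ⟨t, ht⟩ := hk ![c 3, c 4, c 5] h3
    refine ⟨t, ?_⟩
    have e0 : c 3 = t * u 0 := by simpa using congrFun ht 0
    have e1 : c 4 = t * u 1 := by simpa using congrFun ht 1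
    have e2 : c 5 = t * u 2 := by simpa using congrFun ht 2
    ext i
    fin_cases i
    · simpa using h0
    · simpa using h1
    · simpa using h2
    · simpa using e0
    · simpa using e1
    · simpa using e2

theorem exists_cyc (u : Fin 3 → K) (hu : u ≠ 0) :
    ∃ ξ : PA 2 2 1 K, CycRel ξ.1.1 ξ.1.2 topv u := by
  have hfin : Module.finrank K ((Fin 3 → K) ⧸ Submodule.span K {u}) =
      Module.finrank K (Fin 2 → K) := by
    have h1 := Submodule.finrank_quotient_add_finrank (Submodule.span K {u})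
    rw [finrank_span_singleton hu] at h1
    simp only [Module.finrank_fintype_fun_eq_card, Fintype.card_fin] at h1 ⊢
    omega
  let e := LinearEquiv.ofFinrankEq _ _ hfin
  let g : (Fin 3 → K) →ₗ[K] (Fin 2 → K) := e.toLinearMap.comp (Submodule.mkQ _)
  let C : Fin 2 → Fin 3 → K := fun k j => g (Pi.single j 1) k
  have hg : ∀ d : Fin 3 → K, ∀ k, C k 0 * d 0 + C k 1 * d 1 + C k 2 * d 2 = g d k := by
    intro d k
    have : g d = ∑ j, d j • g (Pi.single j 1) := by
      rw [LinearMap.pi_apply_eq_sum_univ g d]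
      refine Finset.sum_congr rfl fun j _ => ?_
      congr 2
      funext i
      simp [Pi.single_apply, eq_comm]
    rw [this, Fin.sum_univ_three]
    simp only [Pi.add_apply, Pi.smul_apply, smul_eq_mul, C]
    ring
  refine ⟨xiC C, cycRel_C C u ?_ ?_ ?_⟩
  · intro w
    obtain ⟨d, hd⟩ := Submodule.mkQ_surjective _ (e.symm w)
    refine ⟨d, fun k => ?_⟩
    rw [hg]
    show e (Submodule.mkQ _ d) k = w k
    rw [hd, LinearEquiv.apply_symm_apply]
  · intro k
    rw [hg]
    show e (Submodule.mkQ _ u) k = 0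
    have : Submodule.mkQ (Submodule.span K {u}) u = 0 := by
      rw [Submodule.mkQ_apply, Submodule.Quotient.mk_eq_zero]
      exact Submodule.mem_span_singleton_self u
    rw [this, map_zero]
    rfl
  · intro d hd
    have h1 : g d = 0 := by
      ext k
      rw [← hg]
      exact hd k
    have h2 : Submodule.mkQ (Submodule.span K {u}) d = 0 := by
      apply e.injective
      rw [map_zero]
      exact h1
    rw [Submodule.mkQ_apply, Submodule.Quotient.mk_eq_zero, Submodule.mem_span_singleton] at h2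
    obtain ⟨t, ht⟩ := h2
    exact ⟨t, ht.symm⟩

end

end Pool.Agent.Lib_helper49.INS
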