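import Mathlib

set_option autoImplicit false

/-! # The Fano configuration is not realizable when `2 ≠ 0` -/

namespace Pool.Agent.Lib_helper49.INS

/-- Nonzero vectors of `F_2^3`. -/
abbrev Fn : Type := {u : Fin 3 → ZMod 2 // u ≠ 0}

/-- The dot product on `K^3`. -/
def dt {K : Type} [Field K] (u v : Fin 3 → K) : K := u 0 * v 0 + u 1 * v 1 + u 2 * v 2

theorem dt_expand {K : Type} [Field K] (U L : Fin 3 → Fin 3 → K)
    (h : ∀ i j, i ≠ j → dt (U i) (L j) = 0) (hd : ∀ i, dt (U i) (L i) ≠ 0) (v w : Fin 3 → K) :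
    dt v w = ∑ k, dt v (L k) * (dt (U k) (L k))⁻¹ * dt (U k) w := by
  let UM : Matrix (Fin 3) (Fin 3) K := fun k j => (dt (U k) (L k))⁻¹ * U k j
  let LM : Matrix (Fin 3) (Fin 3) K := fun i k => L k i
  have h1 : UM * LM = 1 := by
    ext i j
    rw [Matrix.mul_apply, Fin.sum_univ_three]
    show (dt (U i) (L i))⁻¹ * U i 0 * L j 0 + (dt (U i) (L i))⁻¹ * U i 1 * L j 1 +
      (dt (U i) (L i))⁻¹ * U i 2 * L j 2 = _
    have e : (dt (U i) (L i))⁻¹ * U i 0 * L j 0 + (dt (U i) (L i))⁻¹ * U i 1 * L j 1 +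
      (dt (U i) (L i))⁻¹ * U i 2 * L j 2 = (dt (U i) (L i))⁻¹ * dt (U i) (L j) := by
      simp only [dt]
      ring
    rw [e]
    by_cases hij : i = j
    · subst hij
      rw [inv_mul_cancel₀ (hd i), Matrix.one_apply_eq]
    · rw [h i j hij, mul_zero, Matrix.one_apply_ne hij]
  have h2 : LM * UM = 1 := mul_eq_one_comm.1 h1
  have h3 : ∀ i j, ∑ k, L k i * ((dt (U k) (L k))⁻¹ * U k j) = if i = j then 1 else 0 := by
    intro i j
    have := congrFun (congrFun h2 i) j
    rw [Matrix.mul_apply, Matrix.one_apply] at this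
    exact this
  have h4 : ∀ i j, v i * w j * (∑ k, L k i * ((dt (U k) (L k))⁻¹ * U k j)) =
      v i * w j * (if i = j then 1 else 0) := fun i j => by rw [h3]
  have e1 : dt v w = ∑ i, ∑ j, v i * w j * (if i = j then 1 else 0) := by
    simp [Fin.sum_univ_three, dt]
  rw [e1]
  simp only [← h4]
  simp only [Fin.sum_univ_three, dt]
  ring

theorem no_fano {K : Type} [Field K] (h2 : (2 : K) ≠ 0) (u l : Fn → Fin 3 → K)
    (H : ∀ a b : Fn, dt (u a) (l b) = 0 ↔ dt a.1 b.1 = 0) : False := by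
  let E : Fin 3 → Fn := ![⟨![1, 0, 0], by decide⟩, ⟨![0, 1, 0], by decide⟩,
    ⟨![0, 0, 1], by decide⟩]
  have key := dt_expand (fun i => u (E i)) (fun i => l (E i))
    (by
      intro i j hij
      rw [H]
      fin_cases i <;> fin_cases j <;> first | exact absurd rfl hij | decide)
    (by
      intro i
      rw [Ne, H]
      fin_cases i <;> decide)
  -- coordinates
  let x : Fin 3 → Fn → K := fun i a => dt (u a) (l (E i))
  let y : Fin 3 → Fn → K := fun i b => (dt (u (E i)) (l (E i)))⁻¹ * dt (u (E i)) (l b)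
  have hdot : ∀ a b : Fn, dt (u a) (l b) = x 0 a * y 0 b + x 1 a * y 1 b + x 2 a * y 2 b := by
    intro a b
    rw [key, Fin.sum_univ_three]
    simp only [x, y]
    ring
  have hdi : ∀ i, (dt (u (E i)) (l (E i)))⁻¹ ≠ 0 := by
    intro i
    apply inv_ne_zero
    rw [Ne, H]
    fin_cases i <;> decide
  have hx : ∀ i a, x i a = 0 ↔ dt a.1 (E i).1 = 0 := fun i a => H _ _
  have hy : ∀ i b, y i b = 0 ↔ dt (E i).1 b.1 = 0 := fun i b => by
    rw [← H]
    simp only [y, mul_eq_zero, hdi, false_or]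
  let A110 : Fn := ⟨![1, 1, 0], by decide⟩
  let A101 : Fn := ⟨![1, 0, 1], by decide⟩
  let A011 : Fn := ⟨![0, 1, 1], by decide⟩
  let A111 : Fn := ⟨![1, 1, 1], by decide⟩
  -- zero coordinates
  have zp : x 2 A110 = 0 := (hx _ _).2 (by decide)
  have zq : x 1 A101 = 0 := (hx _ _).2 (by decide)
  have zw : x 0 A011 = 0 := (hx _ _).2 (by decide)
  have zr : y 2 A110 = 0 := (hy _ _).2 (by decide)
  have zs : y 1 A101 = 0 := (hy _ _).2 (by decide)
  have zz : y 0 A011 = 0 := (hy _ _).2 (by decide)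
  -- nonzero coordinates
  have np : x 0 A110 ≠ 0 := fun h => absurd ((hx _ _).1 h) (by decide)
  have nq : x 0 A101 ≠ 0 := fun h => absurd ((hx _ _).1 h) (by decide)
  have nw : x 1 A011 ≠ 0 := fun h => absurd ((hx _ _).1 h) (by decide)
  have nr : y 0 A110 ≠ 0 := fun h => absurd ((hy _ _).1 h) (by decide)
  have ns : y 0 A101 ≠ 0 := fun h => absurd ((hy _ _).1 h) (by decide)
  have nz : y 1 A011 ≠ 0 := fun h => absurd ((hy _ _).1 h) (by decide)
  have nt : x 0 A111 ≠ 0 := fun h => absurd ((hx _ _).1 h) (by decide)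
  have nl : y 0 A111 ≠ 0 := fun h => absurd ((hy _ _).1 h) (by decide)
  -- incidences
  have i1 := (hdot A110 A110).symm.trans ((H _ _).2 (by decide))
  have i2 := (hdot A111 A110).symm.trans ((H _ _).2 (by decide))
  have i3 := (hdot A101 A101).symm.trans ((H _ _).2 (by decide))
  have i4 := (hdot A111 A101).symm.trans ((H _ _).2 (by decide))
  have i5 := (hdot A011 A011).symm.trans ((H _ _).2 (by decide))
  have i6 := (hdot A111 A011).symm.trans ((H _ _).2 (by decide))
  have i7 := (hdot A110 A111).symm.trans ((H _ _).2 (by decide))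
  have i8 := (hdot A101 A111).symm.trans ((H _ _).2 (by decide))
  have i9 := (hdot A011 A111).symm.trans ((H _ _).2 (by decide))
  rw [zp, zero_mul, add_zero] at i1 i7
  rw [zr, mul_zero, add_zero] at i2
  rw [zq, zero_mul, add_zero] at i3 i8
  rw [zs, mul_zero, add_zero] at i4
  rw [zw, zero_mul, zero_add] at i5 i9
  rw [zz, mul_zero, zero_add] at i6
  have e1 : x 0 A110 * x 1 A111 = x 0 A111 * x 1 A110 := by
    have : y 0 A110 * (x 0 A110 * x 1 A111 - x 0 A111 * x 1 A110) = 0 := by
      linear_combination x 1 A111 * i1 - x 1 A110 * i2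
    rcases mul_eq_zero.1 this with h | h
    · exact absurd h nr
    · exact sub_eq_zero.1 h
  have e2 : x 0 A101 * x 2 A111 = x 0 A111 * x 2 A101 := by
    have : y 0 A101 * (x 0 A101 * x 2 A111 - x 0 A111 * x 2 A101) = 0 := by
      linear_combination x 2 A111 * i3 - x 2 A101 * i4
    rcases mul_eq_zero.1 this with h | h
    · exact absurd h ns
    · exact sub_eq_zero.1 h
  have e3 : x 1 A011 * x 2 A111 = x 1 A111 * x 2 A011 := by
    have : y 1 A011 * (x 1 A011 * x 2 A111 - x 1 A111 * x 2 A011) = 0 := by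
      linear_combination x 2 A111 * i5 - x 2 A011 * i6
    rcases mul_eq_zero.1 this with h | h
    · exact absurd h nz
    · exact sub_eq_zero.1 h
  have f1 : x 0 A111 * y 0 A111 + x 1 A111 * y 1 A111 = 0 := by
    have : x 0 A110 * (x 0 A111 * y 0 A111 + x 1 A111 * y 1 A111) = 0 := by
      linear_combination x 0 A111 * i7 + y 1 A111 * e1
    rcases mul_eq_zero.1 this with h | h
    · exact absurd h np
    · exact h
  have f2 : x 0 A111 * y 0 A111 + x 2 A111 * y 2 A111 = 0 := by
    have : x 0 A101 * (x 0 A111 * y 0 A111 + x 2 A111 * y 2 A111) = 0 := by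
      linear_combination x 0 A111 * i8 + y 2 A111 * e2
    rcases mul_eq_zero.1 this with h | h
    · exact absurd h nq
    · exact h
  have f3 : x 1 A111 * y 1 A111 + x 2 A111 * y 2 A111 = 0 := by
    have : x 1 A011 * (x 1 A111 * y 1 A111 + x 2 A111 * y 2 A111) = 0 := by
      linear_combination x 1 A111 * i9 + y 2 A111 * e3
    rcases mul_eq_zero.1 this with h | h
    · exact absurd h nw
    · exact h
  have g : 2 * (x 0 A111 * y 0 A111) = 0 := by
    linear_combination f1 + f2 - f3
  rcases mul_eq_zero.1 g with h | h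
  · exact h2 h
  · rcases mul_eq_zero.1 h with h | h
    · exact nt h
    · exact nl h

end Pool.Agent.Lib_helper49.INS
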