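import Mathlib
import Pool.Agent.Lib_helper49.INS.QExample
import Pool.Agent.Lib_helper49.INS.QIsolate
import Pool.Agent.Lib_helper49.INS.QFano

set_option autoImplicit false

/-! # The counts cannot all be polynomial -/

namespace Pool.Agent.Lib_helper49.INS

open Matrix Polynomial

/-- Level sizes for the `b` branches. -/
def hh0 : Option Fn → ℕ := fun _ => 1
/-- Level sizes for the `b` branches. -/
def hh1 : Option Fn → ℕ
  | none => 0
  | some _ => 2
/-- Level sizes for the `b` branches. -/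
def hh2 : Option Fn → ℕ
  | none => 0
  | some _ => 1

theorem card_Zs {p0 p1 p2 h0 h1 h2 : ℕ} {K : Type} [Field K] [Fintype K] (xa : PA p0 p1 p2 K)
    (xb : PA h0 h1 h2 K) :
    Nat.card (Zs xa xb) = Fintype.card K ^
      Module.finrank K (LinearMap.ker (Dmap xa.1.1 xa.1.2 xb.1.1 xb.1.2)) := by
  rw [← Nat.card_eq_fintype_card, ← Module.natCard_eq_pow_finrank (K := K)]
  apply Nat.card_congr
  apply Equiv.subtypeEquivRight
  intro z
  rw [LinearMap.mem_ker]
  exact sub_eq_zero.symm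

/-- The configuration space. -/
abbrev Cfg (K : Type) [Field K] : Type :=
  (Fn → PA 2 2 1 K) × (∀ b : Option Fn, PA (hh0 b) (hh1 b) (hh2 b) K)

/-- The exponents. -/
noncomputable def kk {K : Type} [Field K] (ξ : Cfg K) (e : Fn × Option Fn) : ℕ :=
  Module.finrank K
    (LinearMap.ker (Dmap (ξ.1 e.1).1.1 (ξ.1 e.1).1.2 (ξ.2 e.2).1.1 (ξ.2 e.2).1.2))

/-- The target exponents. -/
def ks : Fn × Option Fn → ℕ
  | (_, none) => 5 * 1 + 1
  | (a, some l) => 5 * 4 + (if dt a.1 l.1 = 0 then 4 else 3)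

theorem kk_eq {K : Type} [Field K] (ξ : Cfg K) (e : Fn × Option Fn) :
    kk ξ e = Fintype.card (TA 2 2 1) * Fintype.card (TA (hh0 e.2) (hh1 e.2) (hh2 e.2)) +
      Module.finrank K (Hsub (ξ.1 e.1).1.1 (ξ.1 e.1).1.2 (ξ.2 e.2).1.1 (ξ.2 e.2).1.2) :=
  finrank_ker_Dmap _ _ _ _

theorem card_TA (p0 p1 p2 : ℕ) : Fintype.card (TA p0 p1 p2) = p2 + (p1 + p0) := by
  simp

theorem kk_le {K : Type} [Field K] (ξ : Cfg K) (e : Fn × Option Fn) : kk ξ e ≤ 40 := by
  unfold kk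
  refine (Submodule.finrank_le _).trans ?_
  rw [Module.finrank_prod, Module.finrank_matrix, card_TA, card_TA, Module.finrank_self]
  obtain ⟨a, b⟩ := e
  cases b <;> simp [hh0, hh1, hh2]

theorem ks_le (e : Fn × Option Fn) : ks e ≤ 40 := by
  obtain ⟨a, b⟩ := e
  cases b with
  | none => simp [ks]
  | some l =>
    simp only [ks]
    split_ifs <;> omega

theorem kk_none {K : Type} [Field K] (ξ : Cfg K) (a : Fn) :
    kk ξ (a, none) = 5 * 1 + Module.finrank K
      (Hsub (ξ.1 a).1.1 (ξ.1 a).1.2 (ξ.2 none : PA 1 0 0 K).1.1 (ξ.2 none : PA 1 0 0 K).1.2) := by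
  rw [kk_eq, card_TA, card_TA]
  rfl

theorem kk_some {K : Type} [Field K] (ξ : Cfg K) (a l : Fn) :
    kk ξ (a, some l) = 5 * 4 + Module.finrank K
      (Hsub (ξ.1 a).1.1 (ξ.1 a).1.2 (ξ.2 (some l) : PA 1 2 1 K).1.1
        (ξ.2 (some l) : PA 1 2 1 K).1.2) := by
  rw [kk_eq, card_TA, card_TA]
  rfl

/-- No configuration when `2 ≠ 0`. -/
theorem no_cfg {K : Type} [Field K] (h2 : (2 : K) ≠ 0) (ξ : Cfg K) : kk ξ ≠ ks := by
  classical
  intro h
  have h1 : ∀ a : Fn, ∃ u : Fin 3 → K, CycRel (ξ.1 a).1.1 (ξ.1 a).1.2 topv u := by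
    intro a
    apply cyc_of_none (ξ.1 a) (ξ.2 none : PA 1 0 0 K)
    have := congrFun h (a, none)
    rw [kk_none] at this
    exact Nat.add_left_cancel this
  choose u hu using h1
  refine no_fano h2 u (fun l => lam (ξ.2 (some l) : PA 1 2 1 K)) ?_
  intro a l
  have h3 := congrFun h (a, some l)
  rw [kk_some] at h3
  have e1 := finrank_Hsub (cube_of (ξ.1 a)) (cube_of (ξ.2 (some l) : PA 1 2 1 K)) (hu a)
  have e2 := finrank_ker_Qu (u a) (ξ.2 (some l) : PA 1 2 1 K)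
  have h4 := (e1.trans e2).symm.trans (Nat.add_left_cancel h3)
  unfold dt
  change (if u a 0 * lam (ξ.2 (some l) : PA 1 2 1 K) 0 + u a 1 * lam (ξ.2 (some l) : PA 1 2 1 K) 1
    + u a 2 * lam (ξ.2 (some l) : PA 1 2 1 K) 2 = 0 then 4 else 3) =
    (if dt a.1 l.1 = 0 then 4 else 3) at h4
  constructor
  · intro h5
    rw [if_pos h5] at h4
    by_contra h6
    have : dt a.1 l.1 ≠ 0 := h6
    rw [if_neg this] at h4
    omega
  · intro h5
    have : dt a.1 l.1 = 0 := h5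
    rw [if_pos this] at h4
    by_contra h6
    rw [if_neg h6] at h4
    omega

/-- A configuration over the field with two elements. -/
theorem exists_cfg : ∃ ξ : Cfg (ZMod 2), kk ξ = ks := by
  classical
  have : Fact (Nat.Prime 2) := ⟨Nat.prime_two⟩
  choose f hf using fun a : Fn => exists_cyc a.1 a.2
  let g : ∀ b : Option Fn, PA (hh0 b) (hh1 b) (hh2 b) (ZMod 2) := fun b => match b with
    | none => (eta0 : PA 1 0 0 (ZMod 2))
    | some l => (etaL l.1 : PA 1 2 1 (ZMod 2))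
  refine ⟨(f, g), ?_⟩
  funext e
  obtain ⟨a, b⟩ := e
  cases b with
  | none =>
    rw [kk_none]
    have h1 := finrank_Hsub (cube_of (f a)) (cube_of (eta0 : PA 1 0 0 (ZMod 2))) (hf a)
    have h2 : Qu a.1 (eta0 : PA 1 0 0 (ZMod 2)).1.1 (eta0 : PA 1 0 0 (ZMod 2)).1.2 = 0 := by
      simp [Qu, eta0]
    rw [h2, mulVecLin_zero, LinearMap.ker_zero, finrank_top] at h1
    have h3 : Module.finrank (ZMod 2) (TA 1 0 0 → ZMod 2) = 1 := by
      rw [Module.finrank_fintype_fun_eq_card, card_TA]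
    rw [h3] at h1
    exact congrArg (fun n => 5 * 1 + n) h1
  | some l =>
    rw [kk_some]
    have h1 := finrank_Hsub (cube_of (f a)) (cube_of (etaL l.1)) (hf a)
    rw [finrank_ker_Qu, lam_etaL] at h1
    exact congrArg (fun n => 5 * 4 + n) h1

theorem exists_bound {E : Type} [Fintype E] [DecidableEq E] (N : ℕ) (g : (E → ℕ) → ℕ) :
    ∃ N0 : ℕ, ∀ m : E → ℕ, (∀ e, m e ≤ N) → g m ≤ N0 := by
  refine ⟨(Fintype.piFinset (fun _ : E => Finset.range (N + 1))).sup g, ?_⟩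
  intro m hm
  have hmem : m ∈ Fintype.piFinset (fun _ : E => Finset.range (N + 1)) := by
    rw [Fintype.mem_piFinset]
    intro e
    exact Finset.mem_range.2 (Nat.lt_succ_of_le (hm e))
  exact Finset.le_sup hmem

theorem no_cfg_odd {K : Type} [Field K] [Fintype K] (h : Fintype.card K % 2 = 1) (ξ : Cfg K) :
    kk ξ ≠ ks := by
  apply no_cfg
  intro h2
  obtain ⟨p, hp⟩ := CharP.exists K
  have h3 : ((2 : ℕ) : K) = 0 := by exact_mod_cast h2
  have h4 : p ∣ 2 := (CharP.cast_eq_zero_iff K p 2).1 h3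
  have h5 : ((Fintype.card K : ℕ) : K) = 0 := FiniteField.cast_card_eq_zero K
  have h6 : p ∣ Fintype.card K := (CharP.cast_eq_zero_iff K p _).1 h5
  have h7 : p ≠ 1 := CharP.char_ne_one K p
  have h8 : p = 2 := by
    rcases (Nat.dvd_prime Nat.prime_two).1 h4 with h | h
    · exact absurd h h7
    · exact h
  subst h8
  omega

theorem main_contra (S : Set ℕ) (hS : S.Infinite) (hS1 : ∀ q ∈ S, IsPrimePow q)
    (hS2 : ∀ q ∈ S, q % 2 = 1)
    (H : ∀ m : Fn → Option Fn → ℕ, (∀ a b, m a b ≤ 40) → ∃ (P : Polynomial ℚ) (N : ℕ),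
      ∀ (K : Type) [Field K] [Fintype K],
      (Fintype.card K = 2 ∨ Fintype.card K ∈ S ∧ N < Fintype.card K) →
      ((Nat.card (MatPair (dv 2 2 1 hh0 hh1 hh2 m) (Xv 2 2 1 hh0 hh1 hh2 m)
        (genv 2 2 1 hh0 hh1 hh2 m) (mpv 2 2 1 hh0 hh1 hh2 m) K) : ℕ) : ℚ) =
        P.eval (Fintype.card K : ℚ)) : False := by
  classical
  have H' : ∀ m : Fn → Option Fn → ℕ, ∃ (P : Polynomial ℚ) (N : ℕ), (∀ a b, m a b ≤ 40) →
      ∀ (K : Type) [Field K] [Fintype K],
      (Fintype.card K = 2 ∨ Fintype.card K ∈ S ∧ N < Fintype.card K) →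
      ((Nat.card (MatPair (dv 2 2 1 hh0 hh1 hh2 m) (Xv 2 2 1 hh0 hh1 hh2 m)
        (genv 2 2 1 hh0 hh1 hh2 m) (mpv 2 2 1 hh0 hh1 hh2 m) K) : ℕ) : ℚ) =
        P.eval (Fintype.card K : ℚ) := by
    intro m
    by_cases hm : ∀ a b, m a b ≤ 40
    · obtain ⟨P, N, h⟩ := H m hm
      exact ⟨P, N, fun _ => h⟩
    · exact ⟨0, 0, fun h => absurd h hm⟩
  choose P NN hP using H'
  obtain ⟨F, hF⟩ := isolate (E := Fn × Option Fn) 40 ks ks_le
    (fun m => P (fun a b => m (a, b)))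
  obtain ⟨N0, hN0⟩ := exists_bound (E := Fn × Option Fn) 40 (fun m => NN (fun a b => m (a, b)))
  have hK : ∀ (K : Type) [Field K] [Fintype K],
      (Fintype.card K = 2 ∨ Fintype.card K ∈ S ∧ N0 < Fintype.card K) →
      (F.eval (Fintype.card K : ℚ) = 0 ↔ ∀ ξ : Cfg K, kk ξ ≠ ks) := by
    intro K _ _ hcard
    apply hF (Fintype.card K) (Cfg K) kk Fintype.one_lt_card kk_le
    intro m hm
    have hcard' : Fintype.card K = 2 ∨ Fintype.card K ∈ S ∧
        NN (fun a b => m (a, b)) < Fintype.card K := by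
      rcases hcard with h | ⟨h1, h2⟩
      · exact Or.inl h
      · exact Or.inr ⟨h1, lt_of_le_of_lt (hN0 m hm) h2⟩
    rw [← hP (fun a b => m (a, b)) (fun a b => hm (a, b)) K hcard', card_matPair_eq_tot,
      card_tot, Nat.cast_sum]
    apply Finset.sum_congr rfl
    intro ξ _
    rw [Nat.cast_prod]
    apply Finset.prod_congr rfl
    intro e _
    rw [card_Zs, Nat.cast_pow, Nat.cast_pow]
    rfl
  have hF0 : F = 0 := by
    apply Polynomial.eq_zero_of_infinite_isRoot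
    have hinf : ((fun n : ℕ => (n : ℚ)) '' (S \ {n : ℕ | n ≤ N0})).Infinite :=
      (hS.sdiff (Set.finite_le_nat _)).image (Nat.cast_injective.injOn)
    apply hinf.mono
    rintro _ ⟨q, ⟨hq, hqN⟩, rfl⟩
    obtain ⟨p, k, hp, hk, hpk⟩ := hS1 q hq
    have : Fact p.Prime := ⟨hp.nat_prime⟩
    let _ : Fintype (GaloisField p k) := Fintype.ofFinite _
    have hc : Fintype.card (GaloisField p k) = q := by
      rw [← Nat.card_eq_fintype_card, GaloisField.card p k hk.ne', hpk]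
    have h1 := hK (GaloisField p k) (Or.inr ⟨hc ▸ hq, by rw [hc]; exact not_le.1 hqN⟩)
    rw [hc] at h1
    show F.eval (q : ℚ) = 0
    rw [h1]
    exact no_cfg_odd (by rw [hc]; exact hS2 q hq)
  have : Fact (Nat.Prime 2) := ⟨Nat.prime_two⟩
  obtain ⟨ξ, hξ⟩ := exists_cfg
  exact (hK (ZMod 2) (Or.inl (ZMod.card 2))).1 (by rw [hF0]; simp) ξ hξ

end Pool.Agent.Lib_helper49.INS
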