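import Mathlib
import Pool.Agent.Lib_helper49.INS.Jac
import Pool.Agent.Lib_helper49.INS.QMain

set_option autoImplicit false

/-! # The counterexample: assembly -/

namespace Pool.Agent.Lib_helper49.INS

open Quiver

/-- The count in terms of families of linear maps into `rad P`. -/
theorem count_eq {K : Type} [Field K] {V : Type} [Finite V] [Quiver.{0} V] {d : V → ℕ}
    (ht : V → ℕ) (hht : ∀ v w : V, (v ⟶ w) → ht v < ht w) :
    count K d = Nat.card
      {fg : (∀ v : V, ((Σ i : V, Fin (d i) × Quiver.Path i v) →₀ K) →ₗ[K]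
                ((Σ i : V, Fin (d i) × Quiver.Path i v) →₀ K)) ×
            (∀ v : V, ((Σ i : V, Fin (d i) × Quiver.Path i v) →₀ K) →ₗ[K]
                ((Σ i : V, Fin (d i) × Quiver.Path i v) →₀ K)) //
        (∀ (v w : V) (e : v ⟶ w),
          (fg.1 w).comp (Finsupp.lmapDomain K K
            (fun x : (Σ i : V, Fin (d i) × Quiver.Path i v) =>
              (⟨x.1, x.2.1, x.2.2.cons e⟩ : Σ i : V, Fin (d i) × Quiver.Path i w))) =
          (Finsupp.lmapDomain K K
            (fun x : (Σ i : V, Fin (d i) × Quiver.Path i v) =>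
              (⟨x.1, x.2.1, x.2.2.cons e⟩ : Σ i : V, Fin (d i) × Quiver.Path i w))).comp
            (fg.1 v)) ∧
        (∀ (v w : V) (e : v ⟶ w),
          (fg.2 w).comp (Finsupp.lmapDomain K K
            (fun x : (Σ i : V, Fin (d i) × Quiver.Path i v) =>
              (⟨x.1, x.2.1, x.2.2.cons e⟩ : Σ i : V, Fin (d i) × Quiver.Path i w))) =
          (Finsupp.lmapDomain K K
            (fun x : (Σ i : V, Fin (d i) × Quiver.Path i v) =>
              (⟨x.1, x.2.1, x.2.2.cons e⟩ : Σ i : V, Fin (d i) × Quiver.Path i w))).comp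
            (fg.2 v)) ∧
        (∀ v : V, LinearMap.range (fg.1 v) ≤
          ⨆ (u : V) (e : u ⟶ v), LinearMap.range (Finsupp.lmapDomain K K
            (fun x : (Σ i : V, Fin (d i) × Quiver.Path i u) =>
              (⟨x.1, x.2.1, x.2.2.cons e⟩ : Σ i : V, Fin (d i) × Quiver.Path i v)))) ∧
        (∀ v : V, LinearMap.range (fg.2 v) ≤
          ⨆ (u : V) (e : u ⟶ v), LinearMap.range (Finsupp.lmapDomain K K
            (fun x : (Σ i : V, Fin (d i) × Quiver.Path i u) =>
              (⟨x.1, x.2.1, x.2.2.cons e⟩ : Σ i : V, Fin (d i) × Quiver.Path i v)))) ∧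
        (∀ v : V, (fg.1 v).comp (fg.2 v) = (fg.2 v).comp (fg.1 v))} := by
  unfold count jacobsonPairs
  apply Nat.card_congr
  refine
    { toFun := fun p => ⟨(p.1.1.1, p.1.2.1), p.1.1.2, p.1.2.2,
        (mem_jacobson_iff_isRad ht hht p.1.1).1 p.2.1,
        (mem_jacobson_iff_isRad ht hht p.1.2).1 p.2.2.1,
        fun v => congrFun (congrArg Subtype.val p.2.2.2) v⟩
      invFun := fun q => ⟨(⟨q.1.1, q.2.1⟩, ⟨q.1.2, q.2.2.1⟩),
        (mem_jacobson_iff_isRad ht hht ⟨q.1.1, q.2.1⟩).2 q.2.2.2.1,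
        (mem_jacobson_iff_isRad ht hht ⟨q.1.2, q.2.2.1⟩).2 q.2.2.2.2.1,
        Subtype.ext (funext fun v => q.2.2.2.2.2 v)⟩
      left_inv := fun p => rfl
      right_inv := fun q => rfl }

/-- The vertices of the quivers: `3 |A| + 3 |B|` of them. -/
def vtEquiv {A B : Type} (m : A → B → ℕ) : Vt m ≃ (A ⊕ B) × Fin 3 where
  toFun
    | .a0 a => (.inl a, 0)
    | .a1 a => (.inl a, 1)
    | .a2 a => (.inl a, 2)
    | .b0 b => (.inr b, 0)
    | .b1 b => (.inr b, 1)
    | .b2 b => (.inr b, 2)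
  invFun
    | (.inl a, 0) => .a0 a
    | (.inl a, 1) => .a1 a
    | (.inl a, 2) => .a2 a
    | (.inr b, 0) => .b0 b
    | (.inr b, 1) => .b1 b
    | (.inr b, 2) => .b2 b
  left_inv := by
    intro v
    cases v <;> rfl
  right_inv := by
    rintro ⟨a | b, i⟩ <;> fin_cases i <;> rfl

theorem card_hom_le {A B : Type} (m : A → B → ℕ) (N : ℕ) (hN : 1 ≤ N) (hm : ∀ a b, m a b ≤ N)
    (v w : Vt m) : Nat.card (v ⟶ w) ≤ N := by
  have key : ∀ (a : A) (b : B), Nat.card (Hm m (.a2 a) (.b0 b)) ≤ N := by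
    intro a b
    let f : Fin (m a b) → Hm m (.a2 a) (.b0 b) := fun k => Hm.e a b k
    have hf : Function.Surjective f := by
      intro x
      cases x with
      | e _ _ k => exact ⟨k, rfl⟩
    have h1 := Nat.card_le_card_of_surjective f hf
    rw [Nat.card_fin] at h1
    exact h1.trans (hm a b)
  by_cases hh : Subsingleton (v ⟶ w)
  · have : Nat.card (v ⟶ w) ≤ 1 := Finite.card_le_one_iff_subsingleton.2 hh
    omega
  · cases v <;> cases w <;>
      first
      | exact key _ _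
      | (exfalso; apply hh; constructor; intro x y; change Hm m _ _ at x y;
         cases x <;> cases y <;> rfl)

theorem card_Fn : Nat.card Fn = 7 := by
  rw [Nat.card_eq_fintype_card]
  decide

theorem dv_le (m : Fn → Option Fn → ℕ) (v : Vt m) : dv 2 2 1 hh0 hh1 hh2 m v ≤ 2 := by
  cases v with
  | a0 a => exact le_rfl
  | a1 a => exact le_rfl
  | a2 a => exact one_le_two
  | b0 b => exact one_le_two
  | b1 b => cases b <;> simp [dv, hh1]
  | b2 b => cases b <;> simp [dv, hh2]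

theorem main (S : Set ℕ) (hS : S.Infinite) (hS1 : ∀ q ∈ S, IsPrimePow q) (hS2 : ∀ q ∈ S, Odd q) :
    ∃ (V : Type) (_ : Fintype V) (_ : Quiver.{0} V) (_ : ∀ v w : V, Fintype (v ⟶ w))
      (d : V → ℕ),
      (∀ (v : V) (p : Quiver.Path v v), p = Quiver.Path.nil) ∧
      Fintype.card V = 45 ∧ (∀ v w : V, Fintype.card (v ⟶ w) ≤ 40) ∧ (∀ v : V, d v ≤ 2) ∧
      ∀ (f : Polynomial ℚ) (N : ℕ), ∃ (K : Type) (_ : Field K) (_ : Fintype K),
        (Fintype.card K = 2 ∨ Fintype.card K ∈ S ∧ N < Fintype.card K) ∧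
        (count K d : ℚ) ≠ f.eval (Fintype.card K : ℚ) := by
  classical
  by_contra hcon
  apply main_contra S hS hS1 (fun q hq => Nat.odd_iff.1 (hS2 q hq))
  intro m hm
  by_contra hm2
  apply hcon
  refine ⟨Vt m, Fintype.ofFinite _, inferInstance, fun v w => Fintype.ofFinite _,
    dv 2 2 1 hh0 hh1 hh2 m, ?_, ?_, ?_, dv_le m, ?_⟩
  · intro v p
    have h1 := Vt.ht_path p
    have h2 : p.length = 0 := by omega
    exact Quiver.Path.eq_nil_of_length_zero p h2
  · rw [← @Nat.card_eq_fintype_card _ (Fintype.ofFinite _), Nat.card_congr (vtEquiv m),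
      Nat.card_prod, Nat.card_sum, Finite.card_option, card_Fn, Nat.card_fin]
  · intro v w
    rw [← @Nat.card_eq_fintype_card _ (Fintype.ofFinite _)]
    exact card_hom_le m 40 (by norm_num) hm v w
  · intro f N
    by_contra hK
    apply hm2
    refine ⟨f, N, ?_⟩
    intro K _ _ hcard
    rw [← card_eq_mat K (isFree_v 2 2 1 hh0 hh1 hh2 m),
      ← count_eq (K := K) (d := dv 2 2 1 hh0 hh1 hh2 m) Vt.ht (fun v w e => Vt.ht_lt e)]
    by_contra hne
    exact hK ⟨K, inferInstance, inferInstance, hcard, hne⟩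

end Pool.Agent.Lib_helper49.INS
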